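import Mathlib

set_option autoImplicit false
open MeasureTheory Set Real Filter Topology Metric
open scoped Convolution

namespace Pool.Agent.H.MP_c1ff29_an

abbrev E := EuclideanSpace ℝ (Fin 3)

/-- directional derivative -/
noncomputable def dd (v : E) (k : E → ℝ) (p : E) : ℝ := fderiv ℝ k p v

lemma dd_cd {n : ℕ} {k : E → ℝ} (hk : ContDiff ℝ (n + 1 : ℕ) k) (v : E) : ContDiff ℝ n (dd v k) :=
  (hk.fderiv_right (by norm_cast)).clm_apply contDiff_const

lemma dd_supp (v : E) (k : E → ℝ) : tsupport (dd v k) ⊆ tsupport k := by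
  refine (closure_mono fun p hp => ?_).trans (tsupport_fderiv_subset ℝ (f := k))
  exact fun h => hp (by simp [dd, h])

lemma dd_cs (v : E) {k : E → ℝ} (h : HasCompactSupport k) : HasCompactSupport (dd v k) :=
  h.of_isClosed_subset (isClosed_tsupport _) (dd_supp v k)

lemma ibp {O : Set E} (hO : IsOpen O) {U k : E → ℝ} (e : E) (hk : ContDiff ℝ 1 k)
    (hU : ∀ p ∈ O, DifferentiableAt ℝ U p) (i1 : IntegrableOn (fun p => dd e U p * k p) O)
    (i2 : IntegrableOn (fun p => U p * dd e k p) O) (i3 : IntegrableOn (fun p => U p * k p) O)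
    (tg : ∀ p ∈ tsupport k, p ∉ O → ∀ᶠ t in 𝓝 (0 : ℝ), p + t • e ∉ O) :
    ∫ p in O, U p * dd e k p = -∫ p in O, dd e U p * k p := by
  have m := hO.measurableSet
  have e1 : ∀ f g : E → ℝ, (fun p => ContinuousLinearMap.mul ℝ ℝ (O.indicator f p) (g p)) =
      O.indicator fun p => f p * g p := fun f g => by
    ext p; by_cases c : p ∈ O <;> simp [c]
  have := integral_bilinear_hasLineDerivAt_right_eq_neg_left_of_integrable (μ := volume) (v := e)
    (f := O.indicator U) (f' := O.indicator (dd e U)) (g := k) (g' := dd e k)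
    (B := ContinuousLinearMap.mul ℝ ℝ) (by rw [e1]; exact (integrable_indicator_iff m).2 i1)
    (by rw [e1]; exact (integrable_indicator_iff m).2 i2)
    (by rw [e1]; exact (integrable_indicator_iff m).2 i3) (fun p hp => ?_)
    fun p _ => (hk.differentiable one_ne_zero p).hasFDerivAt.hasLineDerivAt _
  · rwa [e1, e1, integral_indicator m, integral_indicator m] at this
  by_cases c : p ∈ O
  · rw [indicator_of_mem c]
    exact ((hU p c).hasFDerivAt.congr_of_eventuallyEq
      (mem_of_superset (hO.mem_nhds c) fun x hx => indicator_of_mem hx U)).hasLineDerivAt e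
  · rw [indicator_of_notMem c]
    exact (hasDerivAt_const (0 : ℝ) (0 : ℝ)).congr_of_eventuallyEq
      ((tg p hp c).mono fun t ht => indicator_of_notMem ht U)

lemma conv_der {W k : E → ℝ} (hW : LocallyIntegrable W) (hk : ContDiff ℝ 1 k)
    (ck : HasCompactSupport k) (x v : E) (t : ℝ) :
    HasDerivAt (fun t : ℝ => ∫ s, W s * k (x + t • v - s)) (∫ s, W s * dd v k (x + t • v - s)) t := by
  have h := ck.hasFDerivAt_convolution_right (ContinuousLinearMap.mul ℝ ℝ) hW hk (x + t • v)
  have h2 := h.comp_hasDerivAt t (((hasDerivAt_id t).smul_const v).const_add x)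
  rw [one_smul, convolution_precompR_apply _ hW (ck.fderiv ℝ) (hk.continuous_fderiv one_ne_zero)]
    at h2
  exact h2

lemma mid {C : Set E} (oC : IsOpen C) {w : E → ℝ} (hw : ConcaveOn ℝ C w)
    (li : LocallyIntegrable (C.indicator w))
    (harm : ∀ (b : OrthonormalBasis (Fin 3) ℝ E) (φ : E → ℝ), ContDiff ℝ 2 φ →
      HasCompactSupport φ → tsupport φ ⊆ C → ∫ p in C, w p * ∑ i, dd (b i) (dd (b i) φ) p = 0)
    {p q : E} (hp : p ∈ C) (hq : q ∈ C) : w p + w q = 2 * w ((1 / 2 : ℝ) • (p + q)) := by
  set x₀ := (1 / 2 : ℝ) • (p + q) with hx₀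
  rcases eq_or_ne p q with rfl | ne
  · rw [hx₀, ← two_smul ℝ p, smul_smul]; norm_num; ring
  set h := ‖(1 / 2 : ℝ) • (p - q)‖ with hh
  have h0 : 0 < h := norm_pos_iff.2 (smul_ne_zero (by norm_num) (sub_ne_zero.2 ne))
  obtain ⟨b, hb⟩ := Orthonormal.exists_orthonormalBasis_extension_of_card_eq (𝕜 := ℝ) (E := E)
    (ι := Fin 3) (by simp) (v := fun _ => h⁻¹ • (1 / 2 : ℝ) • (p - q)) (s := {0})
    ⟨fun _ => by simp only [domRestrict_apply]; rw [norm_smul, ← hh]; simp [h0.ne', abs_of_pos h0],
      fun i j hij => absurd (Subsingleton.elim i j) hij⟩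
  have hb0 := hb 0 rfl
  have e1 : x₀ + h • b 0 = p := by
    rw [hb0, smul_smul h, mul_inv_cancel₀ h0.ne', hx₀]; module
  have e2 : x₀ + (-h) • b 0 = q := by
    rw [hb0, neg_smul, smul_smul h, mul_inv_cancel₀ h0.ne', hx₀]; module
  obtain ⟨δ', δ0, hδ⟩ := IsCompact.exists_cthickening_subset_open
    (isCompact_Icc.image (f := fun t : ℝ => x₀ + t • b 0) (s := Icc (-h) h) (by fun_prop)) oC (by
      rintro _ ⟨t, ht, rfl⟩
      have cv : Convex ℝ C := hw.1
      have := cv hp hq (show 0 ≤ (h + t) / (2 * h) from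
        div_nonneg (by linarith [ht.1]) (by linarith)) (show 0 ≤ (h - t) / (2 * h) from
        div_nonneg (by linarith [ht.2]) (by linarith)) (by field_simp; ring)
      convert this using 1
      rw [← e1, ← e2]
      match_scalars <;> field_simp <;> ring)
  have key : ∀ t ∈ Icc (-h) h, ∀ y : E, ‖y‖ ≤ δ' → x₀ + t • b 0 + y ∈ C := fun t ht y hy =>
    hδ (mem_cthickening_of_dist_le _ _ _ _ ⟨t, ht, rfl⟩ (by simpa [dist_eq_norm] using hy))
  set δ := δ' / 2 with hδ'
  have δ1 : 0 < δ := by positivity
  let g : ContDiffBump (0 : E) := ⟨δ / 2, δ, by positivity, by linarith⟩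
  have gs : ∀ s, g s ≠ 0 → ‖s‖ ≤ δ := fun s hs => by
    have : s ∈ ball (0 : E) δ := g.support_eq ▸ hs
    exact (mem_ball_zero_iff.1 this).le
  set W := C.indicator w with hW
  have cg : HasCompactSupport g := g.hasCompactSupport
  have g2 : ContDiff ℝ 2 g := g.contDiff
  have g1 : ContDiff ℝ 1 g := g.contDiff
  have d1 : ∀ v, ContDiff ℝ 1 (dd v g) := dd_cd (n := 1) g2
  set I : E → ℝ := fun x => ∫ s, W s * g (x - s) with hI
  have sw : ∀ x, I x = ∫ s, W (x - s) * g s := fun x => convolution_mul_swap (f := W) (g := g)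
  have ig : ∀ x, Integrable fun s => W (x - s) * g s := fun x =>
    (cg.convolutionExists_right (ContinuousLinearMap.mul ℝ ℝ) li g.continuous x).integrable_swap
  set G : Set E := {x | ∀ s : E, ‖s‖ ≤ δ → x - s ∈ C} with hG
  have ea : ∀ (x y s : E) (a c : ℝ), a + c = 1 → a • x + c • y - s = a • (x - s) + c • (y - s) :=
    fun x y s a c hac => by
      rw [show c = 1 - a by linarith]; module
  have cI : ConcaveOn ℝ G I := by
    refine ⟨fun x hx y hy a c ha hc hac s hs => ?_, fun x hx y hy a c ha hc hac => ?_⟩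
    · rw [ea x y s a c hac]; exact hw.1 (hx s hs) (hy s hs) ha hc hac
    · rw [sw, sw, sw, smul_eq_mul, smul_eq_mul, ← integral_const_mul, ← integral_const_mul,
        ← integral_add ((ig x).const_mul a) ((ig y).const_mul c)]
      refine integral_mono (((ig x).const_mul a).add ((ig y).const_mul c)) (ig _) fun s => ?_
      by_cases hs : g s = 0
      · simp [hs]
      have h1 := hx s (gs s hs)
      have h2 := hy s (gs s hs)
      have h3 := mul_le_mul_of_nonneg_right (hw.2 h1 h2 ha hc hac) (g.nonneg' s)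
      simp only [hW, ea x y s a c hac, indicator_of_mem h1, indicator_of_mem h2,
        indicator_of_mem (hw.1 h1 h2 ha hc hac), smul_eq_mul] at h3 ⊢
      linarith
  have neg : ∀ t ∈ Icc (-h) h, ∀ i, ∫ s, W s * dd (b i) (dd (b i) g) (x₀ + t • b 0 - s) ≤ 0 := by
    intro t ht i
    set x := x₀ + t • b 0
    have c1 : ConcaveOn ℝ (Ioo (-δ) δ) fun r : ℝ => I (x + r • b i) := by
      refine (cI.comp_affineMap (AffineMap.lineMap x (x + b i))).subset (fun r hr s hs => ?_)
        (convex_Ioo _ _) |>.congr fun r _ => by simp [AffineMap.lineMap_apply, add_comm]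
      have := key t ht (r • b i - s) ((norm_sub_le _ _).trans (by
        rw [norm_smul, b.norm_eq_one, mul_one, Real.norm_eq_abs]
        linarith [abs_lt.2 hr]))
      convert this using 1
      simp [AffineMap.lineMap_apply, x]
      abel
    have c2 := c1.antitoneOn_deriv fun r _ => (conv_der li g1 cg x (b i) r).differentiableAt
    have c3 : deriv (fun r : ℝ => I (x + r • b i)) =
        fun r : ℝ => ∫ s, W s * dd (b i) g (x + r • b i - s) :=
      funext fun r => (conv_der li g1 cg x (b i) r).deriv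
    rw [c3] at c2
    have c4 := c2.derivWithin_nonpos (x := 0)
    rw [derivWithin_of_isOpen isOpen_Ioo ⟨by linarith, δ1⟩,
      (conv_der li (d1 _) (dd_cs _ cg) x (b i) 0).deriv] at c4
    simpa using c4
  have sm : ∀ t ∈ Icc (-h) h, ∑ i, ∫ s, W s * dd (b i) (dd (b i) g) (x₀ + t • b 0 - s) = 0 := by
    intro t ht
    set x := x₀ + t • b 0
    have f1 : ∀ (k : E → ℝ) (v : E), ContDiff ℝ 1 k →
        dd v (fun s => k (x - s)) = fun s => -dd v k (x - s) := fun k v hk => funext fun s => by
      have := ((hk.differentiable one_ne_zero (x - s)).hasFDerivAt.comp s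
        ((hasFDerivAt_id s).const_sub x)).fderiv
      simp only [dd]
      rw [show (fun s => k (x - s)) = k ∘ HSub.hSub x from rfl, this]
      simp
    have f2 : ∀ v, dd v (dd v fun s => g (x - s)) = fun s => dd v (dd v g) (x - s) := fun v => by
      rw [f1 g v g1]
      have := f1 (dd v g) v (d1 v)
      ext s
      have h3 := congrFun this s
      simp only [dd] at h3 ⊢
      rw [fderiv_fun_neg, neg_apply, h3, neg_neg]
    have ts : tsupport (fun s => g (x - s)) ⊆ closedBall x δ :=
      closure_minimal (fun s hs => by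
        rw [mem_closedBall, dist_comm, dist_eq_norm]; exact gs _ hs) isClosed_closedBall
    have := harm b (fun s => g (x - s)) (g2.comp (contDiff_const.sub contDiff_id))
      ((isCompact_closedBall x δ).of_isClosed_subset (isClosed_tsupport _) ts)
      (ts.trans fun s hs => by
        have := key t ht (s - x) (by
          rw [← dist_eq_norm]; linarith [mem_closedBall.1 hs])
        simpa [x] using this)
    simp only [f2] at this
    rw [← integral_finsetSum (f := fun i s => W s * dd (b i) (dd (b i) g) (x - s)) _ fun i _ => (dd_cs _ (dd_cs _ cg)).convolutionExists_right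
      (ContinuousLinearMap.mul ℝ ℝ) li (dd_cd (n := 0) (d1 _) _).continuous x, ← this,
      ← integral_indicator oC.measurableSet]
    congr 1 with s
    by_cases c : s ∈ C <;> simp [hW, c, Finset.mul_sum]
  have cv : ConvexOn ℝ (Icc (-h) h) fun t : ℝ => I (x₀ + t • b 0) :=
    convexOn_of_hasDerivWithinAt2_nonneg (convex_Icc _ _)
      (fun t _ => (conv_der li g1 cg x₀ (b 0) t).continuousAt.continuousWithinAt)
      (fun t _ => (conv_der li g1 cg x₀ (b 0) t).hasDerivWithinAt)
      (fun t _ => (conv_der li (d1 _) (dd_cs _ cg) x₀ (b 0) t).hasDerivWithinAt) fun t ht => by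
        have ht' := interior_subset ht
        have := sm t ht'
        rw [Fin.sum_univ_three] at this
        linarith [neg t ht' 1, neg t ht' 2]
  have hf : (0 : ℝ) ≤ 1 / 2 := by norm_num
  have c5 := cv.2 (show h ∈ Icc (-h) h from ⟨by linarith, le_rfl⟩)
    (show -h ∈ Icc (-h) h from ⟨le_rfl, by linarith⟩) hf hf (by norm_num)
  simp only [e1, e2, smul_eq_mul, mul_neg, add_neg_cancel, zero_smul, add_zero] at c5
  have x0C : x₀ ∈ C := by simpa using key 0 ⟨by linarith, h0.le⟩ 0 (by simp [δ0.le])
  set F : E → ℝ := fun s => 2 * (W (x₀ - s) * g s) - (W (p - s) * g s + W (q - s) * g s) with hF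
  have iF : Integrable F := ((ig x₀).const_mul 2).sub ((ig p).add (ig q))
  have F0 : 0 ≤ F := fun s => by
    by_cases hs : g s = 0
    · simp [hF, hs]
    have h1 : p - s ∈ C := by
      simpa [e1, sub_eq_add_neg] using key h ⟨by linarith, le_rfl⟩ (-s) (by
        rw [norm_neg]; linarith [gs s hs])
    have h2 : q - s ∈ C := by
      have := key (-h) ⟨le_rfl, by linarith⟩ (-s) (by rw [norm_neg]; linarith [gs s hs])
      rwa [e2, ← sub_eq_add_neg] at this
    have h3 := hw.2 h1 h2 hf hf (by norm_num)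
    have h4 := hw.1 h1 h2 hf hf (by norm_num)
    have h5 : (1 / 2 : ℝ) • (p - s) + (1 / 2 : ℝ) • (q - s) = x₀ - s := by rw [hx₀]; module
    rw [h5] at h3 h4
    simp only [hF, hW, indicator_of_mem h1, indicator_of_mem h2, indicator_of_mem h4, smul_eq_mul,
      Pi.zero_apply] at h3 ⊢
    nlinarith [g.nonneg' s]
  have cW : ∀ x ∈ C, ContinuousAt (fun s => W (x - s) * g s) 0 := fun x hx => by
    refine ContinuousAt.mul (ContinuousAt.comp (g := W) ?_ (by fun_prop)) g.continuous.continuousAt
    rw [sub_zero]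
    exact ((hw.continuousOn oC).continuousAt (oC.mem_nhds hx)).congr
      (mem_of_superset (oC.mem_nhds hx) fun y hy => (indicator_of_mem hy w).symm)
  have cF : ContinuousAt F 0 := (continuousAt_const.mul (cW _ x0C)).sub ((cW _ hp).add (cW _ hq))
  have g0 : g 0 = 1 := g.one_of_mem_closedBall (mem_closedBall_self g.rIn_pos.le)
  have z : F 0 = 0 := by
    by_contra c
    have := (integral_pos_iff_support_of_nonneg F0 iF).2
      (Measure.measure_pos_of_mem_nhds _ (cF.eventually_ne c))
    rw [hF, integral_sub (g := fun s => W (p - s) * g s + W (q - s) * g s) ((ig x₀).const_mul 2)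
      ((ig p).add (ig q)), integral_add (ig p) (ig q),
      integral_const_mul, ← sw, ← sw, ← sw] at this
    linarith
  simp only [hF, hW, sub_zero, g0, indicator_of_mem hp, indicator_of_mem hq,
    indicator_of_mem x0C] at z
  linarith

end Pool.Agent.H.MP_c1ff29_an
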