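import Pool.Agent.H.MP_c1ff29_an.A

set_option autoImplicit false
open MeasureTheory Set Real Filter Topology Metric Pointwise InnerProductSpace

namespace Pool.Agent.H.MP_c1ff29_an

def Cls (Ω : Set E) (ψ : E → ℝ) : Prop :=
  ContinuousOn ψ (closure Ω) ∧ ContDiffOn ℝ 1 ψ Ω ∧ IntegrableOn (fun x => ‖gradient ψ x‖ ^ 2) Ω

structure Hyp (C Ω : Set E) (α lam : ℝ) (u : E → ℝ) : Prop where
  oC : IsOpen C
  cv : Convex ℝ C
  sm : ∀ t : ℝ, 0 < t → ∀ p ∈ C, t • p ∈ C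
  ne : C.Nonempty
  fin : ∀ R, μHE[2] (frontier C ∩ ball 0 R) < ⊤
  oΩ : IsOpen Ω
  sub : Ω ⊆ C
  loc : ∀ p ∈ C, ‖p‖ < 1 → p ∈ Ω
  bd : Bornology.IsBounded Ω
  α0 : 0 < α
  cls : Cls Ω u
  pos : ∀ p ∈ Ω, 0 < u p
  weak : ∀ ψ, Cls Ω ψ → (∫ x in Ω, ⟪gradient u x, gradient ψ x⟫_ℝ) +
    α * ∫ x in frontier Ω, u x * ψ x ∂μHE[2] = lam * ∫ x in Ω, u x * ψ x
  conc : ConcaveOn ℝ Ω fun x => log (u x)

lemma ng (f : E → ℝ) (x : E) : ‖gradient f x‖ = ‖fderiv ℝ f x‖ := LinearIsometryEquiv.norm_map _ _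

lemma scale_sigma {r : ℝ} (hr : 0 < r) (S : Set E) (G : E → ℝ) :
    ∫ x in r • S, G x ∂μHE[2] = r ^ 2 * ∫ x in S, G (r • x) ∂μHE[2] := by
  let e : E ≃ᵐ E := (Homeomorph.smulOfNeZero r hr.ne').toMeasurableEquiv
  have h1 : Measure.map e μHE[2] = (‖r⁻¹‖₊ ^ 2) • (μHE[2] : Measure E) := by
    ext s _
    rw [e.map_apply, Measure.smul_apply,
      ← Measure.euclideanHausdorffMeasure_smul₀ 2 (inv_ne_zero hr.ne'), ← preimage_smul₀ hr.ne']
    rfl
  have h2 := setIntegral_map_equiv (μ := μHE[2]) e G (r • S)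
  have h3 : e ⁻¹' (r • S) = S := by
    ext x; exact smul_mem_smul_set_iff₀ hr.ne' S x
  rw [h1, h3, Measure.restrict_smul, integral_smul_nnreal_measure] at h2
  change _ = ∫ x in S, G (r • x) ∂μHE[2] at h2
  rw [← h2]
  simp [NNReal.smul_def, hr.ne']

lemma scale_vol {r : ℝ} (hr : 0 < r) (S : Set E) (G : E → ℝ) :
    ∫ x in r • S, G x = r ^ 3 * ∫ x in S, G (r • x) := by
  rw [Measure.setIntegral_comp_smul_of_pos _ _ _ hr]
  simp [hr.ne']

lemma smul_inter {S : Set E} (h : ∀ t : ℝ, 0 < t → ∀ p ∈ S, t • p ∈ S) {r : ℝ} (hr : 0 < r)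
    (R : ℝ) : r • (S ∩ ball 0 R) = S ∩ ball 0 (r * R) := by
  ext x
  rw [mem_smul_set_iff_inv_smul_mem₀ hr.ne', mem_inter_iff, mem_inter_iff, mem_ball_zero_iff,
    mem_ball_zero_iff, norm_smul, Real.norm_of_nonneg (inv_pos.2 hr).le, inv_mul_lt_iff₀ hr]
  exact and_congr_left fun _ => ⟨fun h1 => by simpa [hr.ne'] using h r hr _ h1,
    h _ (inv_pos.2 hr) _⟩

variable {C Ω : Set E} {α lam : ℝ} {u : E → ℝ}

namespace Hyp
variable (H : Hyp C Ω α lam u)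
include H

lemma pre {t : ℝ} (ht : 0 < t) : Homeomorph.smulOfNeZero t ht.ne' ⁻¹' C = C := by
  ext x
  exact ⟨fun h1 => by simpa [ht.ne'] using H.sm _ (inv_pos.2 ht) _ h1, H.sm _ ht _⟩

lemma smF (t : ℝ) (ht : 0 < t) (p : E) (hp : p ∈ frontier C) : t • p ∈ frontier C := by
  rw [← H.pre ht, ← Homeomorph.preimage_frontier] at hp
  exact hp

lemma smC (t : ℝ) (ht : 0 < t) (p : E) (hp : p ∈ closure C) : t • p ∈ closure C := by
  rw [← H.pre ht, ← Homeomorph.preimage_closure] at hp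
  exact hp

lemma int1 : Ω ∩ ball 0 1 = C ∩ ball 0 1 :=
  (inter_subset_inter_left _ H.sub).antisymm fun p hp =>
    ⟨H.loc p hp.1 (mem_ball_zero_iff.1 hp.2), hp.2⟩

lemma clo {p : E} (hp : p ∈ closure C) (h : ‖p‖ < 1) : p ∈ closure Ω := by
  have := isOpen_ball.closure_inter (show p ∈ _ ∩ ball (0 : E) 1 from ⟨hp, mem_ball_zero_iff.2 h⟩)
  rw [← H.int1] at this
  exact closure_mono inter_subset_left this

lemma fro {p : E} (hp : p ∈ frontier C) (h : ‖p‖ < 1) : p ∈ frontier Ω := by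
  have : p ∈ frontier C ∩ ball (0 : E) 1 := ⟨hp, mem_ball_zero_iff.2 h⟩
  rw [← frontier_inter_open_inter isOpen_ball, ← H.int1, frontier_inter_open_inter isOpen_ball]
    at this
  exact this.1

lemma fro' {p : E} (hp : p ∈ frontier Ω) (h : ‖p‖ < 1) : p ∈ frontier C := by
  have : p ∈ frontier Ω ∩ ball (0 : E) 1 := ⟨hp, mem_ball_zero_iff.2 h⟩
  rw [← frontier_inter_open_inter isOpen_ball, H.int1, frontier_inter_open_inter isOpen_ball]
    at this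
  exact this.1

lemma M0 {ψ : E → ℝ} (hψ : Cls Ω ψ) {r R : ℝ} (hr : 0 < r) (h1 : r * R ≤ 1)
    (hz : ∀ p ∈ closure C, r * R ≤ ‖p‖ → ψ =ᶠ[𝓝 p] 0) :
    r * (∫ p in C ∩ ball 0 R, fderiv ℝ ψ (r • p) (gradient u (r • p))) +
      α * ∫ p in frontier C ∩ ball 0 R, u (r • p) * ψ (r • p) ∂μHE[2] =
      lam * r * ∫ p in C ∩ ball 0 R, u (r • p) * ψ (r • p) := by
  have h := H.weak ψ hψ
  have s1 : C ∩ ball 0 (r * R) ⊆ Ω := fun p hp =>
    H.loc p hp.1 ((mem_ball_zero_iff.1 hp.2).trans_le h1)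
  have z1 : ∀ p ∈ Ω \ (C ∩ ball 0 (r * R)), ψ =ᶠ[𝓝 p] 0 := fun p hp =>
    hz p (subset_closure (H.sub hp.1)) (not_lt.1 fun c => hp.2 ⟨H.sub hp.1, mem_ball_zero_iff.2 c⟩)
  simp only [real_inner_comm (gradient ψ _), inner_gradient_left] at h
  rw [setIntegral_eq_of_subset_of_forall_sdiff_eq_zero H.oΩ.measurableSet s1 fun p hp => by
      rw [(z1 p hp).fderiv_eq]; simp,
    setIntegral_eq_of_subset_of_forall_sdiff_eq_zero (f := fun x => u x * ψ x) H.oΩ.measurableSet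
      s1 fun p hp => by rw [(z1 p hp).eq_of_nhds]; simp,
    setIntegral_eq_of_subset_of_forall_sdiff_eq_zero (s := frontier C ∩ ball 0 (r * R))
      isClosed_frontier.measurableSet
      (fun p hp => H.fro hp.1 ((mem_ball_zero_iff.1 hp.2).trans_le h1)) fun p hp => by
        rw [(hz p (closure_mono H.sub hp.1.1) (not_lt.1 fun c =>
          hp.2 ⟨H.fro' hp.1 (c.trans_le h1), mem_ball_zero_iff.2 c⟩)).eq_of_nhds]; simp,
    ← smul_inter H.sm hr, ← smul_inter H.smF hr, scale_vol hr, scale_vol hr, scale_sigma hr] at h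
  refine mul_left_cancel₀ (pow_pos hr 2).ne' ?_
  linarith

lemma cls_of {ψ : E → ℝ} (hψ : ContDiff ℝ 1 ψ) : Cls Ω ψ := by
  refine ⟨hψ.continuous.continuousOn, hψ.contDiffOn, ?_⟩
  simp only [ng]
  exact (((hψ.continuous_fderiv one_ne_zero).norm.pow 2).continuousOn.integrableOn_compact
    H.bd.isCompact_closure).mono_set subset_closure

lemma M1 {φ : E → ℝ} (hφ : ContDiff ℝ 1 φ) {r R : ℝ} (hr : 0 < r) (h1 : r * R ≤ 1)
    (hz : ∀ p ∈ closure C, R ≤ ‖p‖ → φ =ᶠ[𝓝 p] 0) :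
    (∫ p in C ∩ ball 0 R, fderiv ℝ φ p (gradient u (r • p))) +
      α * ∫ p in frontier C ∩ ball 0 R, u (r • p) * φ p ∂μHE[2] =
      lam * r * ∫ p in C ∩ ball 0 R, u (r • p) * φ p := by
  have h := H.M0 (ψ := fun p => φ (r⁻¹ • p)) (H.cls_of (hφ.comp (by fun_prop))) hr h1
    fun p hp h2 => by
      have := hz _ (H.smC _ (inv_pos.2 hr) p hp) (by
        rwa [norm_smul, Real.norm_of_nonneg (inv_pos.2 hr).le, le_inv_mul_iff₀ hr])
      exact (show ContinuousAt (fun p : E => r⁻¹ • p) p by fun_prop).eventually this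
  simp only [fderiv_comp_smul, inv_smul_smul₀ hr.ne', smul_apply, smul_eq_mul,
    integral_const_mul, mul_inv_cancel_left₀ hr.ne'] at h
  exact h

omit H in
lemma mem {r R : ℝ} (hr : 0 < r) (h1 : r * R ≤ 1) {p : E} (hp : p ∈ ball (0 : E) R) :
    ‖r • p‖ < 1 := by
  rw [norm_smul, Real.norm_of_nonneg hr.le]
  exact (mul_lt_mul_of_pos_left (mem_ball_zero_iff.1 hp) hr).trans_le h1

lemma memΩ {r R : ℝ} (hr : 0 < r) (h1 : r * R ≤ 1) {p : E} (hp : p ∈ C ∩ ball 0 R) : r • p ∈ Ω :=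
  H.loc _ (H.sm r hr p hp.1) (mem hr h1 hp.2)

lemma cu {r R : ℝ} (hr : 0 < r) (h1 : r * R ≤ 1) :
    ContinuousOn (fun p => u (r • p)) (closure C ∩ ball 0 R) :=
  H.cls.1.comp (by fun_prop) fun p hp => H.clo (H.smC r hr p hp.1) (mem hr h1 hp.2)

lemma ub : ∃ M, ∀ p ∈ closure Ω, 0 ≤ u p ∧ u p ≤ M := by
  obtain ⟨M, hM⟩ := H.bd.isCompact_closure.exists_bound_of_continuousOn H.cls.1
  exact ⟨M, fun p hp => ⟨ContinuousWithinAt.closure_le hp continuousWithinAt_const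
    ((H.cls.1 p hp).mono subset_closure) fun y hy => (H.pos y hy).le, (le_abs_self _).trans (hM p hp)⟩⟩

lemma cd : ContinuousOn (fderiv ℝ u) Ω := H.cls.2.1.continuousOn_fderiv_of_isOpen H.oΩ le_rfl

lemma df {p : E} (hp : p ∈ Ω) : DifferentiableAt ℝ u p :=
  (H.cls.2.1.contDiffAt (H.oΩ.mem_nhds hp)).differentiableAt one_ne_zero

lemma mR (R : ℝ) : MeasurableSet (C ∩ ball 0 R) := (H.oC.inter isOpen_ball).measurableSet

omit H in
lemma fR (S : Set E) (R : ℝ) : volume (S ∩ ball 0 R) < ⊤ :=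
  (measure_mono inter_subset_right).trans_lt measure_ball_lt_top

lemma int2 {r R : ℝ} (hr : 0 < r) (h1 : r * R ≤ 1) :
    IntegrableOn (fun p => ‖fderiv ℝ u (r • p)‖ ^ 2) (C ∩ ball 0 R) := by
  have := (((integrable_indicator_iff H.oΩ.measurableSet).2 H.cls.2.2).comp_smul hr.ne').integrableOn
    (s := C ∩ ball 0 R)
  exact this.congr_fun (fun p hp => by simp only [indicator_of_mem (H.memΩ hr h1 hp), ng]) (H.mR R)

lemma intD {r R : ℝ} (hr : 0 < r) (h1 : r * R ≤ 1) {v : E → E} (hv : ContinuousOn v (C ∩ ball 0 R))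
    {B : ℝ} (hB : ∀ p ∈ C ∩ ball 0 R, ‖v p‖ ≤ B) :
    IntegrableOn (fun p => fderiv ℝ u (r • p) (v p)) (C ∩ ball 0 R) := by
  refine Integrable.mono' (((integrableOn_const (fR C R).ne (C := (1 : ℝ))).add
    (H.int2 hr h1)).mul_const B) (((H.cd.comp (f := fun p => r • p) (by fun_prop)
      fun p hp => H.memΩ hr h1 hp).clm_apply hv).aestronglyMeasurable (H.mR R)) ?_
  filter_upwards [ae_restrict_mem (H.mR R)] with p hp
  refine (ContinuousLinearMap.le_opNorm _ _).trans (mul_le_mul ?_ (hB p hp) (norm_nonneg _) ?_)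
  · simp only [Pi.add_apply]
    nlinarith [sq_nonneg (‖fderiv ℝ u (r • p)‖ - 1)]
  · simp only [Pi.add_apply]
    positivity

end Hyp

end Pool.Agent.H.MP_c1ff29_an
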