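import Pool.Agent.H.MP_c1ff29_an.B

set_option autoImplicit false
open MeasureTheory Set Real Filter Topology Metric Pointwise InnerProductSpace

namespace Pool.Agent.H.MP_c1ff29_an

noncomputable def chi (t : ℝ) : ℝ := max (1 - t) 0 ^ 2

lemma chi_z {t : ℝ} (h : 1 < t) : chi =ᶠ[𝓝 t] 0 :=
  (eventually_gt_nhds h).mono fun s hs => by simp [chi, hs.le]

lemma chi_d (t : ℝ) : HasDerivAt chi (-2 * max (1 - t) 0) t := by
  rcases lt_trichotomy t 1 with h | rfl | h
  · rw [max_eq_left (by linarith)]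
    have := (((hasDerivAt_id t).const_sub 1).fun_pow 2).congr_of_eventuallyEq (f₁ := chi)
      ((eventually_lt_nhds h).mono fun s hs => by simp [chi, hs.le])
    exact this.congr_deriv (by simp only [id]; ring)
  · rw [hasDerivAt_iff_isLittleO]
    simp only [chi, sub_self, max_self, mul_zero, smul_zero, sub_zero, ne_eq, OfNat.ofNat_ne_zero,
      not_false_eq_true, zero_pow]
    refine Asymptotics.IsBigO.trans_isLittleO (Asymptotics.IsBigO.of_norm_le fun s => ?_)
      (Asymptotics.isLittleO_pow_sub_sub (1 : ℝ) one_lt_two)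
    rw [Real.norm_of_nonneg (sq_nonneg _), Real.norm_eq_abs, abs_sub_comm]
    exact pow_le_pow_left₀ (le_max_right _ _) (max_le (le_abs_self _) (abs_nonneg _)) 2
  · rw [max_eq_right (by linarith), mul_zero]
    exact (hasDerivAt_const t (0 : ℝ)).congr_of_eventuallyEq (chi_z h)

lemma chi_c : ContDiff ℝ 1 chi := by
  rw [contDiff_one_iff_deriv]
  refine ⟨fun t => (chi_d t).differentiableAt, ?_⟩
  rw [funext fun t => (chi_d t).deriv]
  fun_prop

lemma mx1 {t : ℝ} (h : 0 ≤ t) : max (1 - t) 0 ≤ 1 := max_le (by linarith) zero_le_one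

lemma chi_b {t : ℝ} (h : 0 ≤ t) : 0 ≤ chi t ∧ chi t ≤ 1 :=
  ⟨sq_nonneg _, pow_le_one₀ (le_max_right _ _) (mx1 h)⟩

lemma posI {O : Set E} (hO : IsOpen O) {f : E → ℝ} (cf : Continuous f) (h0 : ∀ p, 0 ≤ f p)
    (i : IntegrableOn f O) {p : E} (hp : p ∈ O) (h : f p ≠ 0) : 0 < ∫ p in O, f p :=
  (setIntegral_pos_iff_support_of_nonneg_ae (Eventually.of_forall h0) i).2
    ((cf.isOpen_support.inter hO).measure_pos _ ⟨p, h, hp⟩)

lemma intC {f : E → ℝ} (cf : Continuous f) (S : Set E) (R : ℝ) : IntegrableOn f (S ∩ ball 0 R) :=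
  (cf.continuousOn.integrableOn_compact (isCompact_closedBall 0 R)).mono_set
    (inter_subset_right.trans ball_subset_closedBall)

variable {C Ω : Set E} {α lam : ℝ} {u : E → ℝ}

namespace Hyp
variable (H : Hyp C Ω α lam u)
include H

lemma tang {p q : E} (hp : p ∈ Ω) (hq : q ∈ Ω) :
    log (u q) - log (u p) ≤ fderiv ℝ u p (q - p) / u p := by
  have c := (H.conc.comp_affineMap (AffineMap.lineMap p q)).subset
    (fun t ht => H.conc.1.lineMap_mem hp hq ht) (convex_Icc (0 : ℝ) 1)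
  have d0 : HasDerivAt (fun t : ℝ => u (AffineMap.lineMap p q t)) (fderiv ℝ u p (q - p)) 0 :=
    (H.df hp).hasFDerivAt.comp_hasDerivAt_of_eq 0 AffineMap.hasDerivAt_lineMap (by simp)
  have d := d0.log (by simpa using (H.pos p hp).ne')
  simpa [slope] using c.slope_le_of_hasDerivAt ⟨le_rfl, zero_le_one⟩ ⟨zero_le_one, le_rfl⟩
    one_pos d

lemma zero_mem : (0 : E) ∈ closure C := by
  obtain ⟨p, hp⟩ := H.ne
  have : Tendsto (fun t : ℝ => t • p) (𝓝[>] 0) (𝓝 0) := by
    simpa using ((show Continuous fun t : ℝ => t • p by fun_prop).tendsto 0).mono_left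
      (nhdsWithin_le_nhds (s := Ioi 0))
  exact mem_closure_of_tendsto this (eventually_nhdsWithin_of_forall fun t ht => H.sm t ht p hp)

lemma bnd {r R B : ℝ} (hr : 0 < r) (hr1 : r ≤ 1) {f : E → ℝ} {I : ℝ}
    (hf : ∀ p ∈ closure C ∩ ball 0 R, |f p| ≤ B)
    (h : I + α * ∫ p in frontier C ∩ ball 0 R, f p ∂μHE[2] = lam * r * ∫ p in C ∩ ball 0 R, f p) :
    -I ≤ α * (B * μHE[2].real (frontier C ∩ ball 0 R)) + |lam| * (B * volume.real (C ∩ ball 0 R)) := by
  have h1 := norm_setIntegral_le_of_norm_le_const (H.fin R) (f := f)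
    fun p hp => hf p ⟨frontier_subset_closure hp.1, hp.2⟩
  have h2 := norm_setIntegral_le_of_norm_le_const (fR C R) (f := f)
    fun p hp => hf p ⟨subset_closure hp.1, hp.2⟩
  have h3 := mul_le_mul_of_nonneg_left ((le_abs_self _).trans h1) H.α0.le
  have h4 := neg_abs_le (lam * r * ∫ p in C ∩ ball 0 R, f p)
  rw [abs_mul, abs_mul, abs_of_pos hr] at h4
  have h5 := mul_le_mul (mul_le_of_le_one_right (abs_nonneg lam) hr1) h2 (norm_nonneg _)
    (abs_nonneg _)
  rw [Real.norm_eq_abs] at h5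
  linarith

lemma pos0 {e : E} (he : ‖e‖ = 1) (eC : e ∈ C) (hl : ∀ p ∈ closure C, ‖p‖ ≤ 2 * ⟪e, p⟫_ℝ) :
    0 < u 0 := by
  obtain ⟨M, hM⟩ := H.ub
  have z := H.clo H.zero_mem (by simp)
  refine (hM 0 z).1.lt_of_ne fun h0 => ?_
  have x1 : (1 / 2 : ℝ) • e ∈ Ω := H.loc _ (H.sm _ (by norm_num) _ eC) (by
    rw [norm_smul, he]; norm_num)
  have a0 := H.pos _ x1
  set a := u ((1 / 2 : ℝ) • e) with ha
  set c₀ := ∫ p in C ∩ ball 0 3, 2 * max (1 - ⟪e, p⟫_ℝ) 0 with hc₀
  have c0 : 0 < c₀ := posI (H.oC.inter isOpen_ball) (by fun_prop) (fun p => by positivity)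
    (intC (by fun_prop) _ _) (p := (1 / 2 : ℝ) • e) ⟨H.sub x1, by
      rw [mem_ball_zero_iff, norm_smul, he]; norm_num⟩ (by
      rw [real_inner_smul_right, real_inner_self_eq_norm_sq, he]; norm_num)
  set K := α * (1 * μHE[2].real (frontier C ∩ ball 0 3)) + |lam| * (1 * volume.real (C ∩ ball 0 3))
    with hK
  have K0 : 0 ≤ K := by have := H.α0; positivity
  set N := K / c₀ + 1 with hN
  have N0 : 0 ≤ N := by positivity
  have ev : ∀ᶠ p in 𝓝 (0 : E), p ∈ Ω → N * u p ≤ fderiv ℝ u p e := by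
    have t1 : Tendsto (fun p : E => p + (1 / 2 : ℝ) • e) (𝓝 0) (𝓝 ((1 / 2 : ℝ) • e)) := by
      simpa using (show Continuous fun p : E => p + (1 / 2 : ℝ) • e by fun_prop).tendsto 0
    have e1 := t1.eventually (H.oΩ.mem_nhds x1)
    have e2 := ((H.df x1).continuousAt.tendsto.comp t1).eventually
      (lt_mem_nhds (show a / 2 < a by linarith))
    have e3 := eventually_nhdsWithin_iff.1 ((H.cls.1 0 z).tendsto.eventually
      (gt_mem_nhds (show u 0 < a / 2 * exp (-(N / 2)) by rw [← h0]; positivity)))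
    filter_upwards [e1, e2, e3] with p h1 h2 h3 hp
    have h4 := H.tang hp h1
    have h5 := log_le_log (H.pos p hp) (h3 (subset_closure hp)).le
    have h6 := log_le_log (by positivity) h2.le
    rw [log_mul (by positivity) (exp_pos _).ne', log_exp] at h5
    rw [add_sub_cancel_left, map_smul, smul_eq_mul, le_div_iff₀ (H.pos p hp)] at h4
    simp only [Function.comp] at h6
    nlinarith [H.pos p hp]
  obtain ⟨δ, δ0, hδ⟩ := Metric.eventually_nhds_iff_ball.1 ev
  set r := min δ 1 / 3 with hr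
  have r0 : 0 < r := by positivity
  have r1 : r * 3 ≤ 1 := by linarith [min_le_right δ 1]
  have r2 : r * 3 ≤ δ := by linarith [min_le_left δ 1]
  have l0 : ∀ p ∈ closure C, 0 ≤ ⟪e, p⟫_ℝ := fun p hp => by linarith [hl p hp, norm_nonneg p]
  have key : ∀ ε : ℝ, 0 < ε → N * ∫ p in C ∩ ball 0 3,
      2 * max (1 - ⟪e, p⟫_ℝ) 0 * (u (r • p) / (u (r • p) + ε)) ≤ K := by
    intro ε ε0
    set ψ : E → ℝ := fun x => chi (r⁻¹ * ⟪e, x⟫_ℝ) * (u x + ε)⁻¹ with hψ
    have cχ : ContDiff ℝ 1 fun x : E => chi (r⁻¹ * ⟪e, x⟫_ℝ) :=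
      chi_c.comp (contDiff_const.mul (contDiff_const.inner ℝ contDiff_id))
    have pe : ∀ x ∈ closure Ω, 0 < u x + ε := fun x hx => by linarith [(hM x hx).1]
    have dψ : ∀ x ∈ Ω, ∀ v, fderiv ℝ ψ x v = chi (r⁻¹ * ⟪e, x⟫_ℝ) * (-((u x + ε) ^ 2)⁻¹ *
        fderiv ℝ u x v) + (u x + ε)⁻¹ * (-2 * max (1 - r⁻¹ * ⟪e, x⟫_ℝ) 0 * (r⁻¹ * ⟪e, v⟫_ℝ)) := by
      intro x hx v
      have d1 := (chi_d (r⁻¹ * ⟪e, x⟫_ℝ)).comp_hasFDerivAt x
        ((innerSL ℝ e).hasFDerivAt.const_mul r⁻¹)
      have d2 := (hasDerivAt_inv (pe x (subset_closure hx)).ne').comp_hasFDerivAt x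
        ((H.df hx).hasFDerivAt.add_const ε)
      have d3 := (d1.mul d2).fderiv
      change fderiv ℝ ψ x = _ at d3
      rw [d3]
      simp
    have cψ : ContDiffOn ℝ 1 ψ Ω := cχ.contDiffOn.mul ((H.cls.2.1.add contDiffOn_const).inv
      fun x hx => (pe x (subset_closure hx)).ne')
    have cdψ := cψ.continuousOn_fderiv_of_isOpen H.oΩ le_rfl
    have bψ : ∀ x ∈ Ω, ‖fderiv ℝ ψ x‖ ≤ (ε ^ 2)⁻¹ * ‖fderiv ℝ u x‖ + ε⁻¹ * (2 * r⁻¹) := by
      intro x hx
      refine ContinuousLinearMap.opNorm_le_bound _ (by positivity) fun v => ?_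
      have p0 : 0 ≤ r⁻¹ * ⟪e, x⟫_ℝ := mul_nonneg (inv_pos.2 r0).le (l0 x (subset_closure (H.sub hx)))
      have p1 := H.pos x hx
      have p2 : ((u x + ε) ^ 2)⁻¹ ≤ (ε ^ 2)⁻¹ := by gcongr; linarith
      have p3 : (u x + ε)⁻¹ ≤ ε⁻¹ := by gcongr; linarith
      have p4 : |⟪e, v⟫_ℝ| ≤ ‖v‖ := by simpa [he] using abs_real_inner_le_norm e v
      have p5 := (fderiv ℝ u x).le_opNorm v
      rw [dψ x hx, add_mul]
      refine (norm_add_le _ _).trans (add_le_add ?_ ?_)
      · simp only [norm_mul, norm_neg, Real.norm_of_nonneg (chi_b p0).1,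
          Real.norm_of_nonneg (show 0 ≤ ((u x + ε) ^ 2)⁻¹ by positivity)]
        refine (mul_le_of_le_one_left (by positivity) (chi_b p0).2).trans ?_
        rw [mul_assoc]
        gcongr
      · simp only [norm_mul, norm_neg, Real.norm_eq_abs, abs_two,
          abs_of_nonneg (le_max_right (1 - r⁻¹ * ⟪e, x⟫_ℝ) 0), abs_of_pos (inv_pos.2 r0),
          abs_of_pos (show 0 < (u x + ε)⁻¹ by positivity)]
        calc _ ≤ ε⁻¹ * (2 * 1 * (r⁻¹ * ‖v‖)) := by have := mx1 p0; gcongr
          _ = _ := by ring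
    have vol : volume Ω ≠ ⊤ := H.bd.measure_lt_top.ne
    have cl : Cls Ω ψ := by
      refine ⟨cχ.continuous.continuousOn.mul ((H.cls.1.add continuousOn_const).inv₀
        fun x hx => (pe x hx).ne'), cψ, ?_⟩
      simp only [ng]
      refine Integrable.mono' ((H.cls.2.2.const_mul (2 * (ε ^ 2)⁻¹ ^ 2)).add
        (integrableOn_const vol (C := 2 * (ε⁻¹ * (2 * r⁻¹)) ^ 2)))
        ((cdψ.norm.pow 2).aestronglyMeasurable H.oΩ.measurableSet) ?_
      filter_upwards [ae_restrict_mem H.oΩ.measurableSet] with x hx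
      rw [Real.norm_of_nonneg (sq_nonneg _), Pi.add_apply, ng]
      nlinarith [pow_le_pow_left₀ (norm_nonneg _) (bψ x hx) 2,
        sq_nonneg ((ε ^ 2)⁻¹ * ‖fderiv ℝ u x‖ - ε⁻¹ * (2 * r⁻¹))]
    have m := H.M0 cl r0 r1 fun p hp h => by
      have h1 : 1 < r⁻¹ * ⟪e, p⟫_ℝ := by rw [lt_inv_mul_iff₀ r0]; linarith [hl p hp]
      filter_upwards [(show ContinuousAt (fun x : E => r⁻¹ * ⟪e, x⟫_ℝ) p by fun_prop).eventually
        (chi_z h1)] with x hx
      simp only [hψ, hx, Pi.zero_apply, zero_mul]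
    have er : ∀ p : E, r⁻¹ * ⟪e, r • p⟫_ℝ = ⟪e, p⟫_ℝ := fun p => by
      rw [real_inner_smul_right, inv_mul_cancel_left₀ r0.ne']
    refine le_trans ?_ (H.bnd r0 (by linarith) (fun p hp => ?_) m)
    · have mm := H.mR 3
      have cr : ContinuousOn (fun p : E => r • p) (C ∩ ball 0 3) := by fun_prop
      have mp : MapsTo (fun p : E => r • p) (C ∩ ball 0 3) Ω := fun p hp => H.memΩ r0 r1 hp
      have cu := (H.cu r0 r1).mono (inter_subset_inter_left _ subset_closure)
      rw [← integral_const_mul, ← integral_const_mul, ← integral_neg]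
      refine setIntegral_mono_on ?_ ?_ mm fun p hp => ?_
      · refine Integrable.const_mul (Integrable.mono' (intC (f := fun p => 2 * max (1 - ⟪e, p⟫_ℝ) 0)
          (by fun_prop) C 3) (ContinuousOn.aestronglyMeasurable (ContinuousOn.mul (by fun_prop)
          (cu.div (cu.add continuousOn_const) fun p hp => (pe _ (subset_closure (mp hp))).ne')) mm)
          ?_) N
        filter_upwards [ae_restrict_mem mm] with p hp
        have : 0 < u (r • p) := H.pos _ (mp hp)
        simp only [Pi.mul_apply, Pi.div_apply, Pi.add_apply]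
        rw [Real.norm_of_nonneg (by positivity)]
        exact mul_le_of_le_one_right (by positivity) (div_le_one_of_le₀ (by linarith) (by linarith))
      · refine Integrable.neg (Integrable.const_mul (Integrable.mono'
          (((H.int2 r0 r1).add (integrableOn_const (fR C 3).ne (C := (1 : ℝ)))).const_mul
            ((ε ^ 2)⁻¹ + ε⁻¹ * (2 * r⁻¹))) (ContinuousOn.aestronglyMeasurable
          ((cdψ.comp cr mp).clm_apply ((toDual ℝ E).symm.continuous.comp_continuousOn
            (H.cd.comp cr mp))) mm) ?_) r)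
        filter_upwards [ae_restrict_mem mm] with p hp
        refine (ContinuousLinearMap.le_opNorm _ _).trans ?_
        simp only [Function.comp, LinearIsometryEquiv.norm_map, Pi.add_apply]
        have b1 := mul_le_mul_of_nonneg_right (bψ (r • p) (mp hp)) (norm_nonneg (fderiv ℝ u (r • p)))
        have b2 : (0 : ℝ) ≤ (ε ^ 2)⁻¹ := by positivity
        have b3 : 0 ≤ ε⁻¹ * (2 * r⁻¹) := by positivity
        nlinarith [mul_nonneg b3 (sq_nonneg (‖fderiv ℝ u (r • p)‖ - 1)),
          mul_nonneg b3 (sq_nonneg ‖fderiv ℝ u (r • p)‖)]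
      · have p1 : 0 < u (r • p) := H.pos _ (mp hp)
        have p2 := hδ (r • p) (by
          rw [mem_ball_zero_iff, norm_smul, Real.norm_of_nonneg r0.le]
          exact (mul_lt_mul_of_pos_left (mem_ball_zero_iff.1 hp.2) r0).trans_le r2) (mp hp)
        have q1 : ⟪e, gradient u (r • p)⟫_ℝ = fderiv ℝ u (r • p) e := by
          rw [real_inner_comm, inner_gradient_left]
        have q2 : fderiv ℝ u (r • p) (gradient u (r • p)) = ‖gradient u (r • p)‖ ^ 2 := by
          rw [← inner_gradient_left, real_inner_self_eq_norm_sq]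
        rw [dψ (r • p) (mp hp), er, q1, q2]
        have p3 : 0 ≤ r * (chi ⟪e, p⟫_ℝ * (((u (r • p) + ε) ^ 2)⁻¹ * ‖gradient u (r • p)‖ ^ 2)) :=
          mul_nonneg r0.le (mul_nonneg (sq_nonneg _) (by positivity))
        have p4 := mul_le_mul_of_nonneg_left p2
          (show 0 ≤ (u (r • p) + ε)⁻¹ * (2 * max (1 - ⟪e, p⟫_ℝ) 0) by positivity)
        have p5 : r * ((u (r • p) + ε)⁻¹ * (-2 * max (1 - ⟪e, p⟫_ℝ) 0 *
            (r⁻¹ * fderiv ℝ u (r • p) e))) =
            -((u (r • p) + ε)⁻¹ * (2 * max (1 - ⟪e, p⟫_ℝ) 0) * fderiv ℝ u (r • p) e) := by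
          field_simp
        rw [mul_add, p5, div_eq_inv_mul]
        linarith
    · have p1 := hM _ (H.clo (H.smC r r0 p hp.1) (mem r0 r1 hp.2))
      have p2 := chi_b (l0 p hp.1)
      simp only [hψ, er]
      rw [abs_of_nonneg (mul_nonneg p1.1 (mul_nonneg p2.1 (by have := p1.1; positivity))),
        mul_left_comm, ← div_eq_mul_inv]
      exact mul_le_one₀ p2.2 (by have := p1.1; positivity)
        (div_le_one_of_le₀ (by linarith) (by linarith))
  have lim : Tendsto (fun ε : ℝ => ∫ p in C ∩ ball 0 3,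
      2 * max (1 - ⟪e, p⟫_ℝ) 0 * (u (r • p) / (u (r • p) + ε))) (𝓝[>] 0) (𝓝 c₀) := by
    have mm := H.mR 3
    have cu := (H.cu r0 r1).mono (inter_subset_inter_left _ subset_closure)
    refine tendsto_integral_filter_of_dominated_convergence (fun p => 2 * max (1 - ⟪e, p⟫_ℝ) 0)
      (eventually_nhdsWithin_of_forall fun ε hε => ContinuousOn.aestronglyMeasurable
        (ContinuousOn.mul (by fun_prop) (cu.div (cu.add continuousOn_const) fun p hp =>
          (add_pos (H.pos _ (H.memΩ r0 r1 hp)) hε).ne')) mm)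
      (eventually_nhdsWithin_of_forall fun ε hε => ?_) (intC (by fun_prop) C 3) ?_
    · filter_upwards [ae_restrict_mem mm] with p hp
      have := H.pos _ (H.memΩ r0 r1 hp)
      have ε0 : 0 < ε := hε
      rw [Real.norm_of_nonneg (by positivity)]
      exact mul_le_of_le_one_right (by positivity) (div_le_one_of_le₀ (by linarith) (by linarith))
    · filter_upwards [ae_restrict_mem mm] with p hp
      have p1 := (H.pos _ (H.memΩ r0 r1 hp)).ne'
      have := ((show ContinuousAt (fun ε : ℝ => 2 * max (1 - ⟪e, p⟫_ℝ) 0 *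
        (u (r • p) / (u (r • p) + ε))) 0 from continuousAt_const.mul (continuousAt_const.div
        (by fun_prop) (by simpa using p1))).tendsto).mono_left (nhdsWithin_le_nhds (s := Ioi 0))
      simpa [p1] using this
  have := le_of_tendsto (lim.const_mul N) (eventually_nhdsWithin_of_forall key)
  rw [hN, add_mul, div_mul_cancel₀ _ c0.ne'] at this
  linarith

end Hyp

end Pool.Agent.H.MP_c1ff29_an
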