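import Pool.Agent.H.MP_c1ff29_an.C

set_option autoImplicit false
open MeasureTheory Set Real Filter Topology Metric Pointwise InnerProductSpace

namespace Pool.Agent.H.MP_c1ff29_an

noncomputable def V (u : E → ℝ) (r : ℝ) (p : E) : ℝ := (log (u (r • p)) - log (u 0)) / r

lemma small (c : ℝ) {d : ℝ} (hd : 0 < d) : ∀ᶠ r in 𝓝[>] (0 : ℝ), 0 < r ∧ r * c < d := by
  have : Tendsto (fun r : ℝ => r * c) (𝓝[>] 0) (𝓝 0) := by
    simpa using ((show Continuous fun r : ℝ => r * c by fun_prop).tendsto 0).mono_left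
      (nhdsWithin_le_nhds (s := Ioi 0))
  exact (eventually_mem_nhdsWithin (s := Ioi (0 : ℝ))).and (this.eventually (gt_mem_nhds hd))

lemma nsm {r : ℝ} (hr : 0 < r) (p : E) : ‖r • p‖ = r * ‖p‖ := by
  rw [norm_smul, Real.norm_of_nonneg hr.le]

variable {C Ω : Set E} {α lam : ℝ} {u : E → ℝ}

namespace Hyp
variable (H : Hyp C Ω α lam u)
include H

lemma lim0 {p : E} (hp : p ∈ closure C) :
    Tendsto (fun r : ℝ => u (r • p)) (𝓝[>] 0) (𝓝 (u 0)) := by
  refine (H.cls.1 0 (H.clo H.zero_mem (by simp))).tendsto.comp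
    (tendsto_nhdsWithin_iff.2 ⟨?_, (small ‖p‖ one_pos).mono fun r hr =>
      H.clo (H.smC r hr.1 p hp) (by rw [nsm hr.1]; exact hr.2)⟩)
  simpa using ((show Continuous fun t : ℝ => t • p by fun_prop).tendsto 0).mono_left
    (nhdsWithin_le_nhds (s := Ioi 0))

lemma ray (h0 : 0 < u 0) {q : E} (hq : q ∈ C) (q1 : ‖q‖ < 1) {t : ℝ} (t0 : 0 < t) (t1 : t ≤ 1) :
    (1 - t) * log (u 0) + t * log (u q) ≤ log (u (t • q)) := by
  have m : t • q ∈ Ω := H.loc _ (H.sm t t0 q hq) (by rw [nsm t0]; nlinarith [norm_nonneg q])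
  have l1 := (((H.lim0 (subset_closure hq)).log h0.ne').const_mul (1 - t)).add_const
    (t * log (u q))
  have l2 : Tendsto (fun δ : ℝ => (1 - t) • δ • q + t • q) (𝓝[>] 0) (𝓝 (t • q)) := by
    simpa using ((show Continuous fun δ : ℝ => (1 - t) • δ • q + t • q by fun_prop).tendsto
      0).mono_left (nhdsWithin_le_nhds (s := Ioi 0))
  refine le_of_tendsto_of_tendsto l1 (((H.df m).continuousAt.tendsto.comp l2).log (H.pos _ m).ne')
    ((small ‖q‖ one_pos).mono fun δ hδ => ?_)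
  exact H.conc.2 (H.loc _ (H.sm δ hδ.1 q hq) (by rw [nsm hδ.1]; exact hδ.2)) (H.loc q hq q1)
    (by linarith) t0.le (by ring)

lemma anti (h0 : 0 < u 0) {p : E} (hp : p ∈ C) {s r : ℝ} (s0 : 0 < s) (sr : s ≤ r)
    (r1 : r * ‖p‖ < 1) : V u r p ≤ V u s p := by
  have r0 := s0.trans_le sr
  have := H.ray h0 (H.sm r r0 p hp) (by rwa [nsm r0]) (div_pos s0 r0) ((div_le_one r0).2 sr)
  rw [smul_smul, div_mul_cancel₀ _ r0.ne'] at this
  rw [V, V, le_div_iff₀ s0]
  have e : (log (u (r • p)) - log (u 0)) / r * s = s / r * (log (u (r • p)) - log (u 0)) := by ring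
  linarith

lemma near (h0 : 0 < u 0) : ∃ ρ, 0 < ρ ∧ ρ < 1 ∧
    ∀ p ∈ closure C, ‖p‖ ≤ ρ → |log (u p) - log (u 0)| ≤ 1 := by
  obtain ⟨δ, δ0, h⟩ := Metric.continuousWithinAt_iff.1
    ((H.cls.1 0 (H.clo H.zero_mem (by simp))).log h0.ne') 1 one_pos
  have := lt_min δ0 one_pos
  refine ⟨min δ 1 / 2, by positivity, by linarith [min_le_right δ 1], fun p hp h1 => ?_⟩
  exact (h (H.clo hp (by linarith [min_le_right δ 1])) (by
    rw [dist_zero_right]; linarith [min_le_left δ 1])).le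

lemma lower (h0 : 0 < u 0) {R : ℝ} (R0 : 0 < R) :
    ∃ K, ∀ᶠ r in 𝓝[>] (0 : ℝ), ∀ p ∈ C, ‖p‖ ≤ R → -K ≤ V u r p := by
  obtain ⟨ρ, ρ0, ρ1, h⟩ := H.near h0
  refine ⟨R / ρ, (small R ρ0).mono fun r hr p hp pR => ?_⟩
  have r0 := div_pos ρ0 R0
  have n1 : ρ / R * ‖p‖ ≤ ρ := by
    rw [div_mul_eq_mul_div, div_le_iff₀ R0]; gcongr
  refine le_trans ?_ (H.anti h0 hp hr.1 ((le_div_iff₀ R0).2 hr.2.le) (n1.trans_lt ρ1))
  have := (abs_le.1 (h _ (subset_closure (H.sm _ r0 p hp)) (by rwa [nsm r0]))).1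
  rw [V, le_div_iff₀ r0]
  have e : -(R / ρ) * (ρ / R) = -1 := by field_simp
  linarith

lemma fin1 (h0 : 0 < u 0) : ∃ p ∈ C, ∃ K, ∀ᶠ r in 𝓝[>] (0 : ℝ), V u r p ≤ K := by
  by_contra! hc
  obtain ⟨ρ, ρ0, ρ1, h⟩ := H.near h0
  obtain ⟨M, hM⟩ := H.ub
  have mm := H.mR 2
  set m : E → ℝ := fun p => 4 * max (1 - ‖p‖ ^ 2) 0 with hm
  have cm : Continuous m := by fun_prop
  have m0 : ∀ p, 0 ≤ m p := fun p => by positivity
  have m4 : ∀ p, m p ≤ 4 := fun p => by simp only [hm]; linarith [mx1 (sq_nonneg ‖p‖)]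
  have c0 : 0 < ∫ p in C ∩ ball 0 2, m p := by
    obtain ⟨p, hp⟩ := H.ne
    obtain ⟨r, r0, r1⟩ := (small ‖p‖ one_pos).exists
    have n1 := nsm r0 p
    refine posI (H.oC.inter isOpen_ball) cm m0 (intC cm _ _) (p := r • p)
      ⟨H.sm r r0 p hp, mem_ball_zero_iff.2 (by linarith)⟩ (mul_pos four_pos (lt_max_of_lt_left ?_)).ne'
    nlinarith [norm_nonneg (r • p)]
  set c₀ := ∫ p in C ∩ ball 0 2, m p
  set K := α * (M * μHE[2].real (frontier C ∩ ball 0 2)) + |lam| * (M * volume.real (C ∩ ball 0 2))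
  have M0 : 0 ≤ M := h0.le.trans (hM 0 (H.clo H.zero_mem (by simp))).2
  have K0 : 0 ≤ K := by have := H.α0; positivity
  set N := K / (u 0 * c₀) + 1 with hN
  have N0 : 0 ≤ N := by positivity
  set D : ℝ → E → ℝ := fun s p => fderiv ℝ u (s • p) p / u (s • p) with hD
  have tg : ∀ p ∈ C, ∀ s r : ℝ, 0 < s → s < r → r * ‖p‖ < 1 →
      log (u (r • p)) - log (u (s • p)) ≤ (r - s) * D s p := fun p hp s r s0 sr r1 => by
    have := H.tang (H.loc _ (H.sm s s0 p hp) (by rw [nsm s0]; nlinarith [norm_nonneg p]))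
      (H.loc _ (H.sm r (s0.trans sr) p hp) (by rwa [nsm (s0.trans sr)]))
    rwa [← sub_smul, map_smul, smul_eq_mul, mul_div_assoc] at this
  have cG : ∀ s, 0 < s → s * 2 ≤ 1 →
      ContinuousOn (fun p => m p * (u (s • p) * min (D s p) N)) (C ∩ ball 0 2) := fun s s0 s1 => by
    have cu := (H.cu s0 s1).mono (inter_subset_inter_left _ subset_closure)
    exact cm.continuousOn.mul (cu.mul (ContinuousOn.inf ((((H.cd.comp (f := fun p => s • p)
      (by fun_prop) fun p hp => H.memΩ s0 s1 hp).clm_apply continuousOn_id).div cu fun p hp =>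
      (H.pos _ (H.memΩ s0 s1 hp)).ne')) continuousOn_const))
  have bG : ∀ s, 0 < s → s * 4 < ρ → ∀ p ∈ C ∩ ball 0 2,
      ‖m p * (u (s • p) * min (D s p) N)‖ ≤ 4 * (M * (N + 8 / ρ)) := fun s s0 s1 p hp => by
    have pn := mem_ball_zero_iff.1 hp.2
    have t1 := tg p hp.1 s (ρ / 2) s0 (by linarith) (by nlinarith)
    have t2 := abs_le.1 (h _ (subset_closure (H.sm s s0 p hp.1)) (by rw [nsm s0]; nlinarith))
    have t3 := abs_le.1 (h _ (subset_closure (H.sm (ρ / 2) (by linarith) p hp.1))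
      (by rw [nsm (by linarith)]; nlinarith))
    have t4 : -(8 / ρ) ≤ D s p := by
      by_contra! c
      have : (ρ / 2 - s) * D s p < (ρ / 2 - s) * -(8 / ρ) := by gcongr; linarith
      have e : ρ / 4 * (8 / ρ) = 2 := by field_simp; norm_num
      nlinarith [div_pos (show (0 : ℝ) < 8 by norm_num) ρ0]
    have t5 := hM _ (subset_closure (H.memΩ s0 (by linarith) hp))
    have t6 : |min (D s p) N| ≤ N + 8 / ρ := by
      have := div_pos (show (0 : ℝ) < 8 by norm_num) ρ0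
      exact abs_le.2 ⟨le_min (by linarith) (by linarith), (min_le_right _ _).trans (by linarith)⟩
    rw [norm_mul, Real.norm_of_nonneg (m0 p), norm_mul, Real.norm_of_nonneg t5.1]
    exact mul_le_mul (m4 p) (mul_le_mul t5.2 t6 (abs_nonneg _) M0)
      (mul_nonneg t5.1 (norm_nonneg _)) (by norm_num)
  have key : ∀ᶠ s in 𝓝[>] (0 : ℝ),
      ∫ p in C ∩ ball 0 2, m p * (u (s • p) * min (D s p) N) ≤ K := by
    filter_upwards [small 4 ρ0] with s hs
    have s1 : s * 2 ≤ 1 := by linarith [hs.1, hs.2]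
    have cφ : ContDiff ℝ 1 fun p : E => chi (‖p‖ ^ 2) := chi_c.comp (contDiff_norm_sq ℝ)
    have m1 := H.M1 cφ hs.1 s1 fun p _ hp =>
      (show ContinuousAt (fun p : E => ‖p‖ ^ 2) p by fun_prop).eventually (chi_z (by nlinarith))
    refine le_trans ?_ (H.bnd hs.1 (by linarith) (fun p hp => ?_) m1)
    · have e : ∀ p : E, fderiv ℝ (fun p : E => chi (‖p‖ ^ 2)) p (gradient u (s • p)) =
          -fderiv ℝ u (s • p) (m p • p) := fun p => by
        have := ((chi_d (‖p‖ ^ 2)).comp_hasFDerivAt p (hasStrictFDerivAt_norm_sq p).hasFDerivAt).fderiv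
        change fderiv ℝ (fun p : E => chi (‖p‖ ^ 2)) p = _ at this
        rw [this, map_smul, ← inner_gradient_left, real_inner_comm]
        simp [hm]
        ring
      simp only [e, integral_neg, neg_neg]
      refine setIntegral_mono_on (Integrable.mono' (integrableOn_const (fR C 2).ne)
        ((cG s hs.1 s1).aestronglyMeasurable mm) ((ae_restrict_mem mm).mono (bG s hs.1 hs.2)))
        (H.intD hs.1 s1 (B := 4 * 2) (by fun_prop) fun p hp => ?_) mm fun p hp => ?_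
      · rw [norm_smul, Real.norm_of_nonneg (m0 p)]
        exact mul_le_mul (m4 p) (mem_ball_zero_iff.1 hp.2).le (norm_nonneg _) (by norm_num)
      · have p1 := H.pos _ (H.memΩ hs.1 s1 hp)
        rw [map_smul, smul_eq_mul]
        refine mul_le_mul_of_nonneg_left ((mul_le_mul_of_nonneg_left (min_le_left _ _)
          p1.le).trans_eq ?_) (m0 p)
        simp only [hD]
        field_simp
    · have p1 := hM _ (H.clo (H.smC s hs.1 p hp.1) (mem hs.1 s1 hp.2))
      have p2 := chi_b (sq_nonneg ‖p‖)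
      rw [abs_of_nonneg (mul_nonneg p1.1 p2.1)]
      exact (mul_le_of_le_one_right p1.1 p2.2).trans p1.2
  have lim : Tendsto (fun s : ℝ => ∫ p in C ∩ ball 0 2, m p * (u (s • p) * min (D s p) N))
      (𝓝[>] 0) (𝓝 (∫ p in C ∩ ball 0 2, m p * (u 0 * N))) := by
    refine tendsto_integral_filter_of_dominated_convergence (fun _ => 4 * (M * (N + 8 / ρ)))
      ((small 4 ρ0).mono fun s hs => (cG s hs.1 (by linarith [hs.1, hs.2])).aestronglyMeasurable mm)
      ((small 4 ρ0).mono fun s hs => (ae_restrict_mem mm).mono (bG s hs.1 hs.2))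
      (integrableOn_const (fR C 2).ne) ((ae_restrict_mem mm).mono fun p hp => ?_)
    refine (((H.lim0 (subset_closure hp.1)).mul (tendsto_const_nhds.congr' ?_)).const_mul _)
    obtain ⟨r, r2, r0, r1⟩ := ((hc p hp.1 N).and_eventually (small ‖p‖ one_pos)).exists
    rw [V, lt_div_iff₀ r0] at r2
    filter_upwards [((H.lim0 (subset_closure hp.1)).log h0.ne').eventually
      (gt_mem_nhds (show log (u 0) < log (u (r • p)) - N * r by linarith)), small 1 r0] with s h1 h2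
    have := tg p hp.1 s r h2.1 (by linarith [h2.2]) r1
    refine (min_eq_right (le_of_mul_le_mul_left ?_ (show 0 < r - s by linarith [h2.2]))).symm
    nlinarith [h2.1]
  have := le_of_tendsto lim key
  rw [integral_mul_const, hN, mul_comm, mul_right_comm, mul_add, mul_div_cancel₀ _ (by positivity)]
    at this
  nlinarith [mul_pos h0 c0]

lemma cV {r : ℝ} (r0 : 0 < r) {p q : E} (hp : r • p ∈ Ω) (hq : r • q ∈ Ω) {a b : ℝ} (ha : 0 ≤ a)
    (hb : 0 ≤ b) (hab : a + b = 1) : a * V u r p + b * V u r q ≤ V u r (a • p + b • q) := by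
  have := H.conc.2 hp hq ha hb hab
  rw [V, V, V, smul_add, smul_comm r a, smul_comm r b, ← mul_div_assoc, ← mul_div_assoc, ← add_div]
  refine div_le_div_of_nonneg_right ?_ r0.le
  simp only [smul_eq_mul] at this
  linear_combination this - log (u 0) * hab

lemma bddV (h0 : 0 < u 0) {R : ℝ} (R0 : 0 < R) :
    ∃ K, ∀ᶠ r in 𝓝[>] (0 : ℝ), ∀ p ∈ C, ‖p‖ ≤ R → |V u r p| ≤ K := by
  obtain ⟨p₁, h1, K₁, h2⟩ := H.fin1 h0
  obtain ⟨δ, δ0, hδ⟩ := Metric.isOpen_iff.1 H.oC _ (H.sm 2 two_pos _ h1)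
  obtain ⟨K₂, h3⟩ := H.lower h0 R0
  obtain ⟨K₃, h4⟩ := H.lower h0 (show 0 < ‖(2 : ℝ) • p₁‖ + δ by positivity)
  set t := min (δ / (2 * R)) 1 with ht
  have t0 : 0 < t := by positivity
  have t1 : t * R < δ := by
    have := (le_div_iff₀ (by positivity)).1 (min_le_left (δ / (2 * R)) 1)
    nlinarith
  refine ⟨max K₂ ((2 * K₁ + K₃) / t), ?_⟩
  filter_upwards [h2, h3, h4, small R one_pos, small (‖(2 : ℝ) • p₁‖ + δ) one_pos] with
    r e1 e2 e3 e4 e5 q hq qR
  refine abs_le.2 ⟨(neg_le_neg (le_max_left _ _)).trans (e2 q hq qR), le_max_of_le_right ?_⟩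
  have n1 : ‖t • q‖ < δ := by rw [nsm t0]; nlinarith
  have b1 : (2 : ℝ) • p₁ - t • q ∈ C := hδ (by simpa [dist_eq_norm] using n1)
  have b2 : ‖(2 : ℝ) • p₁ - t • q‖ ≤ ‖(2 : ℝ) • p₁‖ + δ := (norm_sub_le _ _).trans (by linarith)
  have b3 := e3 _ b1 b2
  have rq : r * ‖q‖ < 1 := by nlinarith [e4.1, e4.2]
  have b4 := H.cV e4.1 (p := t • q) (q := (2 : ℝ) • p₁ - t • q)
    (H.loc _ (H.sm _ e4.1 _ (H.sm _ t0 _ hq)) (by
      rw [nsm e4.1, nsm t0]
      nlinarith [mul_le_mul_of_nonneg_right (min_le_right (δ / (2 * R)) 1)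
        (mul_nonneg e4.1.le (norm_nonneg q))]))
    (H.loc _ (H.sm _ e4.1 _ b1) (by rw [nsm e4.1]; nlinarith [e4.1, e5.2]))
    (a := 1 / 2) (b := 1 / 2) (by norm_num) (by norm_num) (by norm_num)
  rw [show (1 / 2 : ℝ) • t • q + (1 / 2 : ℝ) • ((2 : ℝ) • p₁ - t • q) = p₁ by module] at b4
  have b5 := H.ray h0 (H.sm r e4.1 q hq) (by rwa [nsm e4.1]) t0 (min_le_right _ _)
  have b6 : t * V u r q ≤ V u r (t • q) := by
    rw [V, V, smul_comm r t, ← mul_div_assoc]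
    exact div_le_div_of_nonneg_right (by linarith) e4.1.le
  rw [le_div_iff₀ t0]
  linarith

lemma exW (h0 : 0 < u 0) : ∃ w : E → ℝ, ∀ p ∈ C,
    Tendsto (fun r => V u r p) (𝓝[>] 0) (𝓝 (w p)) := by
  have : ∀ p : E, ∃ l, p ∈ C → Tendsto (fun r => V u r p) (𝓝[>] 0) (𝓝 l) := fun p => by
    by_cases hp : p ∈ C
    · obtain ⟨K, hK⟩ := H.bddV h0 (show 0 < ‖p‖ + 1 by positivity)
      obtain ⟨y, y0, hy⟩ := (mem_nhdsGT_iff_exists_Ioo_subset).1 (hK.and (small ‖p‖ one_pos))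
      exact ⟨_, fun _ => AntitoneOn.tendsto_nhdsWithin_Ioo_right (nonempty_Ioo.2 y0)
        (fun s hs r hr sr => H.anti h0 hp hs.1 sr (hy hr).2.2)
        ⟨K, forall_mem_image.2 fun r hr => (abs_le.1 ((hy hr).1 p hp (by linarith))).2⟩⟩
    · exact ⟨0, fun h => absurd h hp⟩
  choose w hw using this
  exact ⟨w, hw⟩

end Hyp

end Pool.Agent.H.MP_c1ff29_an
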