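import Pool.Agent.H.MP_c1ff29_an.D

set_option autoImplicit false
open MeasureTheory Set Real Filter Topology Metric Pointwise InnerProductSpace

namespace Pool.Agent.H.MP_c1ff29_an

variable {C Ω : Set E} {α lam : ℝ} {u : E → ℝ}

lemma cb {f : E → ℝ} (cf : Continuous f) (R : ℝ) : ∃ B, ∀ p ∈ ball (0 : E) R, ‖f p‖ ≤ B :=
  ((isCompact_closedBall 0 R).exists_bound_of_continuousOn cf.continuousOn).imp fun _ h p hp =>
    h p (ball_subset_closedBall hp)

namespace Hyp
variable (H : Hyp C Ω α lam u)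
include H

lemma idn (h0 : 0 < u 0) {w : E → ℝ}
    (hw : ∀ p ∈ C, Tendsto (fun r => V u r p) (𝓝[>] 0) (𝓝 (w p)))
    (b : OrthonormalBasis (Fin 3) ℝ E) {φ : E → ℝ} (hφ : ContDiff ℝ 2 φ) {R : ℝ} (R0 : 0 < R)
    (hs : tsupport φ ⊆ ball 0 R)
    (tg : ∀ i, ∀ p ∈ tsupport (dd (b i) φ), p ∉ C → ∀ᶠ t in 𝓝 (0 : ℝ), p + t • b i ∉ C) :
    ∫ p in C ∩ ball 0 R, w p * ∑ i, dd (b i) (dd (b i) φ) p =
      α * ∫ p in frontier C ∩ ball 0 R, φ p ∂μHE[2] := by
  obtain ⟨M, hM⟩ := H.ub
  obtain ⟨K, hK⟩ := H.bddV h0 R0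
  have mm := H.mR R
  have mF : MeasurableSet (frontier C ∩ ball 0 R) :=
    isClosed_frontier.measurableSet.inter measurableSet_ball
  have φ1 : ContDiff ℝ 1 φ := hφ.of_le (by norm_num)
  have d1 : ∀ i, ContDiff ℝ 1 (dd (b i) φ) := fun i => dd_cd (n := 1) hφ _
  have d2 : ∀ i, Continuous (dd (b i) (dd (b i) φ)) := fun i => (dd_cd (n := 0) (d1 i) _).continuous
  have cS : Continuous fun p => ∑ i, dd (b i) (dd (b i) φ) p := continuous_finsetSum _ fun i _ => d2 i
  have uM : ∀ r, 0 < r → r * R ≤ 1 → ∀ p ∈ closure C ∩ ball 0 R, ‖u (r • p)‖ ≤ M :=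
    fun r r0 r1 p hp => by
      have := hM _ (H.clo (H.smC r r0 p hp.1) (mem r0 r1 hp.2))
      rw [Real.norm_of_nonneg this.1]; exact this.2
  have cU : ∀ r, 0 < r → r * R ≤ 1 →
      ContinuousOn (fun p => (u (r • p) - u 0) / r) (C ∩ ball 0 R) := fun r r0 r1 =>
    (((H.cu r0 r1).mono (inter_subset_inter_left _ subset_closure)).sub
      continuousOn_const).div_const r
  have key : ∀ᶠ r in 𝓝[>] (0 : ℝ),
      ∫ p in C ∩ ball 0 R, (u (r • p) - u 0) / r * ∑ i, dd (b i) (dd (b i) φ) p =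
      α * (∫ p in frontier C ∩ ball 0 R, u (r • p) * φ p ∂μHE[2]) -
        lam * r * ∫ p in C ∩ ball 0 R, u (r • p) * φ p := by
    filter_upwards [small R one_pos] with r ⟨r0, r1⟩
    have m1 := H.M1 φ1 r0 r1.le fun p _ hp => notMem_tsupport_iff_eventuallyEq.1 fun c =>
      (mem_ball_zero_iff.1 (hs c)).not_ge hp
    have iU : ∀ k : E → ℝ, Continuous k →
        IntegrableOn (fun p => (u (r • p) - u 0) / r * k p) (C ∩ ball 0 R) := fun k ck =>
      (intC ck C R).bdd_mul (c := (M + ‖u 0‖) / r) ((cU r r0 r1.le).aestronglyMeasurable mm)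
        ((ae_restrict_mem mm).mono fun p hp => by
          rw [norm_div, Real.norm_of_nonneg r0.le]
          exact div_le_div_of_nonneg_right ((norm_sub_le _ _).trans (by
            linarith [uM r r0 r1.le p ⟨subset_closure hp.1, hp.2⟩])) r0.le)
    have dU : ∀ p ∈ C ∩ ball 0 R, HasFDerivAt (fun p => (u (r • p) - u 0) / r)
        (fderiv ℝ u (r • p)) p := fun p hp => by
      have := ((((H.df (H.memΩ r0 r1.le hp)).hasFDerivAt.comp p
        ((hasFDerivAt_id p).const_smul r)).sub_const (u 0)).const_mul r⁻¹)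
      simp only [div_eq_inv_mul]
      exact this.congr_fderiv (by ext x; simp [r0.ne'])
    have iD : ∀ i, IntegrableOn (fun p => fderiv ℝ u (r • p) (b i) * dd (b i) φ p)
        (C ∩ ball 0 R) := fun i => by
      obtain ⟨B, hB⟩ := cb (d1 i).continuous R
      have := H.intD r0 r1.le (v := fun p => dd (b i) φ p • b i) (B := B)
        ((d1 i).continuous.smul continuous_const).continuousOn fun p hp => by
          rw [norm_smul, b.norm_eq_one, mul_one]; exact hB p hp.2
      simpa only [map_smul, smul_eq_mul, mul_comm] using this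
    have eD : ∀ i, EqOn (fun p => dd (b i) (fun p => (u (r • p) - u 0) / r) p * dd (b i) φ p)
        (fun p => fderiv ℝ u (r • p) (b i) * dd (b i) φ p) (C ∩ ball 0 R) := fun i p hp => by
      simp only [dd, (dU p hp).fderiv]
    have ib : ∀ i, ∫ p in C ∩ ball 0 R, (u (r • p) - u 0) / r * dd (b i) (dd (b i) φ) p =
        -∫ p in C ∩ ball 0 R, fderiv ℝ u (r • p) (b i) * dd (b i) φ p := fun i => by
      rw [ibp (H.oC.inter isOpen_ball) (b i) (d1 i) (fun p hp => (dU p hp).differentiableAt)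
        ((iD i).congr_fun (eD i).symm mm) (iU _ (d2 i)) (iU _ (d1 i).continuous)
        fun p hp hp' => (tg i p hp fun c => hp' ⟨c, hs (dd_supp _ _ hp)⟩).mono
          fun t ht c => ht c.1, setIntegral_congr_fun mm (eD i)]
    have e : ∀ p, fderiv ℝ φ p (gradient u (r • p)) =
        ∑ i, fderiv ℝ u (r • p) (b i) * dd (b i) φ p := fun p => by
      rw [← inner_gradient_left, real_inner_comm, ← b.sum_inner_mul_inner]
      refine Finset.sum_congr rfl fun i _ => ?_
      rw [inner_gradient_left, real_inner_comm, inner_gradient_left, dd]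
    simp only [e] at m1
    rw [integral_finsetSum _ fun i _ => iD i] at m1
    simp only [Finset.mul_sum]
    rw [integral_finsetSum _ fun i _ => iU _ (d2 i)]
    simp only [ib, Finset.sum_neg_distrib]
    linarith
  have l1 : Tendsto (fun r : ℝ => ∫ p in C ∩ ball 0 R,
      (u (r • p) - u 0) / r * ∑ i, dd (b i) (dd (b i) φ) p) (𝓝[>] 0)
      (𝓝 (∫ p in C ∩ ball 0 R, u 0 * w p * ∑ i, dd (b i) (dd (b i) φ) p)) := by
    have eU : ∀ r, 0 < r → r * R ≤ 1 → ∀ p ∈ C ∩ ball 0 R,
        (u (r • p) - u 0) / r = u 0 * ((exp (r * V u r p) - 1) / r) := fun r r0 r1 p hp => by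
      rw [V, mul_div_cancel₀ _ r0.ne', exp_sub, exp_log h0, exp_log (H.pos _ (H.memΩ r0 r1 hp))]
      field_simp
    have ev : ∀ᶠ r in 𝓝[>] (0 : ℝ), 0 < r ∧ r * R ≤ 1 ∧ ∀ p ∈ C ∩ ball 0 R,
        |V u r p| ≤ K ∧ |r * V u r p| ≤ 1 := by
      filter_upwards [hK, small R one_pos, small K one_pos] with r e1 e2 e3
      refine ⟨e2.1, e2.2.le, fun p hp => ?_⟩
      have := e1 p hp.1 (mem_ball_zero_iff.1 hp.2).le
      refine ⟨this, ?_⟩
      rw [abs_mul, abs_of_pos e2.1]
      nlinarith [e2.1, e3.2]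
    refine tendsto_integral_filter_of_dominated_convergence
      (fun p => u 0 * (2 * K) * ‖∑ i, dd (b i) (dd (b i) φ) p‖)
      (ev.mono fun r hr => ((cU r hr.1 hr.2.1).mul cS.continuousOn).aestronglyMeasurable mm)
      (ev.mono fun r hr => (ae_restrict_mem mm).mono fun p hp => ?_)
      (intC (continuous_const.mul cS.norm) C R) ((ae_restrict_mem mm).mono fun p hp => ?_)
    · rw [norm_mul, eU r hr.1 hr.2.1 p hp, norm_mul, Real.norm_of_nonneg h0.le, norm_div,
        Real.norm_of_nonneg hr.1.le]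
      gcongr
      rw [div_le_iff₀ hr.1]
      refine (abs_exp_sub_one_le (hr.2.2 p hp).2).trans ?_
      rw [abs_mul, abs_of_pos hr.1]
      nlinarith [(hr.2.2 p hp).1, hr.1]
    · refine Tendsto.mul_const _ (Tendsto.congr'
        (ev.mono fun r hr => (eU r hr.1 hr.2.1 p hp).symm) (Tendsto.const_mul _ ?_))
      have t0 : Tendsto (fun r : ℝ => r * K ^ 2) (𝓝[>] 0) (𝓝 0) := by
        simpa using ((show Continuous fun r : ℝ => r * K ^ 2 by fun_prop).tendsto 0).mono_left
          (nhdsWithin_le_nhds (s := Ioi 0))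
      have t1 : Tendsto (fun r : ℝ => (exp (r * V u r p) - 1) / r - V u r p) (𝓝[>] 0) (𝓝 0) := by
        refine squeeze_zero_norm' (ev.mono fun r hr => ?_) t0
        have r0 := hr.1
        have e1 : (exp (r * V u r p) - 1) / r - V u r p =
            (exp (r * V u r p) - 1 - r * V u r p) / r := by field_simp
        rw [e1, norm_div, Real.norm_of_nonneg r0.le, div_le_iff₀ r0]
        refine (abs_exp_sub_one_sub_id_le (hr.2.2 p hp).2).trans ?_
        have := pow_le_pow_left₀ (abs_nonneg _) (hr.2.2 p hp).1 2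
        rw [sq_abs] at this
        nlinarith [mul_le_mul_of_nonneg_left this (sq_nonneg r)]
      simpa using t1.add (hw p hp.1)
  obtain ⟨B, hB⟩ := cb hφ.continuous R
  have l2 : ∀ (μ : Measure E) (S : Set E), MeasurableSet (S ∩ ball 0 R) → S ⊆ closure C →
      μ (S ∩ ball 0 R) < ⊤ → Tendsto (fun r : ℝ => ∫ p in S ∩ ball 0 R, u (r • p) * φ p ∂μ) (𝓝[>] 0)
      (𝓝 (∫ p in S ∩ ball 0 R, u 0 * φ p ∂μ)) := fun μ S mS sS fS =>
    tendsto_integral_filter_of_dominated_convergence (fun _ => M * B)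
      ((small R one_pos).mono fun r hr => (((H.cu hr.1 hr.2.le).mono
        (inter_subset_inter_left _ sS)).mul hφ.continuous.continuousOn).aestronglyMeasurable mS)
      ((small R one_pos).mono fun r hr => (ae_restrict_mem mS).mono fun p hp => by
        have := uM r hr.1 hr.2.le p ⟨sS hp.1, hp.2⟩
        rw [norm_mul]
        exact mul_le_mul this (hB p hp.2) (norm_nonneg _) ((norm_nonneg _).trans this))
      (integrableOn_const fS.ne)
      ((ae_restrict_mem mS).mono fun p hp => (H.lim0 (sS hp.1)).mul_const _)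
  have l3 := ((l2 _ _ mF frontier_subset_closure (H.fin R)).const_mul α).sub
    ((((tendsto_id (x := 𝓝 (0 : ℝ))).mono_left (nhdsWithin_le_nhds (s := Ioi 0))).const_mul
      lam).mul (l2 volume C mm subset_closure (fR C R)))
  have := tendsto_nhds_unique (l1.congr' key) l3
  simp only [mul_assoc, integral_const_mul, mul_zero, zero_mul, sub_zero] at this
  exact mul_left_cancel₀ h0.ne' (by linarith)

theorem blow (h0 : 0 < u 0) : ∃ w : E → ℝ, (∀ p ∈ C, ∀ q ∈ C, w (p + q) = w p + w q) ∧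
    (∀ t : ℝ, 0 < t → ∀ p ∈ C, w (t • p) = t * w p) ∧
    ∀ (b : OrthonormalBasis (Fin 3) ℝ E) (φ : E → ℝ) (R : ℝ), ContDiff ℝ 2 φ → 0 < R →
      tsupport φ ⊆ ball 0 R →
      (∀ i, ∀ p ∈ tsupport (dd (b i) φ), p ∉ C → ∀ᶠ t in 𝓝 (0 : ℝ), p + t • b i ∉ C) →
      ∫ p in C ∩ ball 0 R, w p * ∑ i, dd (b i) (dd (b i) φ) p =
        α * ∫ p in frontier C ∩ ball 0 R, φ p ∂μHE[2] := by
  obtain ⟨w, hw⟩ := H.exW h0
  have hom : ∀ t : ℝ, 0 < t → ∀ p ∈ C, w (t • p) = t * w p := fun t t0 p hp => by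
    have t1 : Tendsto (fun r : ℝ => r * t) (𝓝[>] 0) (𝓝[>] 0) :=
      tendsto_nhdsWithin_iff.2 ⟨by
        simpa using ((show Continuous fun r : ℝ => r * t by fun_prop).tendsto 0).mono_left
          (nhdsWithin_le_nhds (s := Ioi 0)),
        eventually_nhdsWithin_of_forall fun r hr => mul_pos hr t0⟩
    refine tendsto_nhds_unique (hw _ (H.sm t t0 p hp)) ((((hw p hp).comp t1).const_mul t).congr'
      (eventually_nhdsWithin_of_forall fun r hr => ?_))
    have : r ≠ 0 := ne_of_gt hr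
    simp only [V, Function.comp, smul_smul]
    field_simp
  have cw : ConcaveOn ℝ C w := ⟨H.cv, fun p hp q hq a b ha hb hab => by
    refine le_of_tendsto_of_tendsto (((hw p hp).const_mul a).add ((hw q hq).const_mul b))
      (hw _ (H.cv hp hq ha hb hab)) ?_
    filter_upwards [small ‖p‖ one_pos, small ‖q‖ one_pos] with r e1 e2
    exact H.cV e1.1 (H.loc _ (H.sm r e1.1 p hp) (by rw [nsm e1.1]; exact e1.2))
      (H.loc _ (H.sm r e1.1 q hq) (by rw [nsm e1.1]; exact e2.2)) ha hb hab⟩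
  have li : LocallyIntegrable (C.indicator w) := fun x => by
    obtain ⟨K, hK⟩ := H.bddV h0 (show 0 < ‖x‖ + 1 by positivity)
    refine ⟨ball 0 (‖x‖ + 1), isOpen_ball.mem_nhds (by simp), ?_⟩
    rw [IntegrableOn, integrable_indicator_iff H.oC.measurableSet, IntegrableOn,
      Measure.restrict_restrict H.oC.measurableSet]
    refine Integrable.mono' (integrableOn_const (fR C _).ne (C := K))
      (((cw.continuousOn H.oC).mono inter_subset_left).aestronglyMeasurable (H.mR _))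
      ((ae_restrict_mem (H.mR _)).mono fun p hp => le_of_tendsto (hw p hp.1).abs
        (hK.mono fun r hr => hr p hp.1 (mem_ball_zero_iff.1 hp.2).le))
  refine ⟨w, fun p hp q hq => ?_, hom, fun b φ R h1 h2 h3 h4 => H.idn h0 hw b h1 h2 h3 h4⟩
  rw [mid H.oC cw li (fun b φ h1 h2 h3 => ?_) hp hq, ← hom 2 two_pos _ (by
    simpa only [smul_add] using H.cv hp hq (show (0 : ℝ) ≤ 1 / 2 by norm_num)
      (show (0 : ℝ) ≤ 1 / 2 by norm_num) (by norm_num)), smul_smul]
  · norm_num
  obtain ⟨R, R0, hR⟩ := h2.isCompact.isBounded.subset_ball_lt 0 0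
  have := H.idn h0 hw b h1 R0 hR fun i p hp c => absurd (h3 (dd_supp _ _ hp)) c
  rw [setIntegral_eq_of_subset_of_forall_sdiff_eq_zero H.oC.measurableSet inter_subset_left
    (s := C ∩ ball 0 R) fun p hp => ?_, this, setIntegral_eq_zero_of_forall_eq_zero fun p hp =>
      image_eq_zero_of_notMem_tsupport fun c => (H.oC.frontier_eq ▸ hp.1).2 (h3 c), mul_zero]
  rw [Finset.sum_eq_zero fun i _ => image_eq_zero_of_notMem_tsupport fun c =>
    hp.2 ⟨hp.1, hR (dd_supp _ _ (dd_supp _ _ c))⟩, mul_zero]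

end Hyp

end Pool.Agent.H.MP_c1ff29_an
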