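import Pool.Agent.H.MP_c1ff29_an.F

set_option autoImplicit false
open MeasureTheory Set Real Filter Topology Metric Pointwise InnerProductSpace

namespace Pool.Agent.H.MP_c1ff29_an

variable (b : OrthonormalBasis (Fin 3) ℝ E)

lemma oi (i j : Fin 3) : ⟪b i, b j⟫_ℝ = if i = j then 1 else 0 :=
  orthonormal_iff_ite.1 b.orthonormal i j

noncomputable def jj (q : EuclideanSpace ℝ (Fin 2)) : E := q 0 • b 0 + q 1 • b 1

lemma jj_i (q : EuclideanSpace ℝ (Fin 2)) :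
    ⟪b 0, jj b q⟫_ℝ = q 0 ∧ ⟪b 1, jj b q⟫_ℝ = q 1 ∧ ⟪b 2, jj b q⟫_ℝ = 0 := by
  simp [jj, inner_add_right, inner_smul_right]

lemma jj_iso : Isometry (jj b) := Isometry.of_dist_eq fun p q => by
  have : jj b p - jj b q = jj b (p - q) := by simp only [jj, PiLp.sub_apply]; module
  rw [dist_eq_norm, dist_eq_norm, this, ← sq_eq_sq₀ (norm_nonneg _) (norm_nonneg _),
    ← b.sum_sq_inner_right, EuclideanSpace.real_norm_sq_eq, Fin.sum_univ_three, Fin.sum_univ_two,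
    (jj_i b _).1, (jj_i b _).2.1, (jj_i b _).2.2]
  ring

lemma jj_range : range (jj b) = {p | ⟪b 2, p⟫_ℝ = 0} := by
  ext p
  refine ⟨fun ⟨q, hq⟩ => hq ▸ (jj_i b q).2.2, fun hp => ⟨!₂[⟪b 0, p⟫_ℝ, ⟪b 1, p⟫_ℝ], ?_⟩⟩
  conv_rhs => rw [← b.sum_repr' p, Fin.sum_univ_three, show ⟪b 2, p⟫_ℝ = 0 from hp]
  simp [jj]

lemma plane_fin (R : ℝ) : μHE[2] ({p : E | ⟪b 2, p⟫_ℝ = 0} ∩ ball 0 R) < ⊤ := by
  rw [← jj_range, inter_comm, ← (jj_iso b).euclideanHausdorffMeasure_preimage,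
    EuclideanSpace.euclideanHausdorffMeasure_eq_volume]
  exact ((jj_iso b).antilipschitz.isBounded_preimage isBounded_ball).measure_lt_top

lemma plane_int (f g : ℝ → ℝ) (F : E → ℝ) (h : ∀ q, F (jj b q) = f (q 0) * g (q 1)) :
    ∫ p in {p : E | ⟪b 2, p⟫_ℝ = 0}, F p ∂μHE[2] = (∫ t, f t) * ∫ t, g t := by
  rw [← jj_range, ← (jj_iso b).map_euclideanHausdorffMeasure,
    (jj_iso b).isClosedEmbedding.integral_map, EuclideanSpace.euclideanHausdorffMeasure_eq_volume,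
    ← (PiLp.volume_preserving_toLp (Fin 2)).integral_comp
      (MeasurableEquiv.toLp 2 _).measurableEmbedding]
  have := integral_fintype_prod_volume_eq_prod (ι := Fin 2) (E := fun _ => ℝ) ![f, g]
  simpa [Fin.prod_univ_two, h] using this

lemma vol_int (f g h : ℝ → ℝ) :
    ∫ p : E, f ⟪b 0, p⟫_ℝ * g ⟪b 1, p⟫_ℝ * h ⟪b 2, p⟫_ℝ = (∫ t, f t) * (∫ t, g t) * ∫ t, h t := by
  rw [← b.measurePreserving_repr_symm.integral_comp b.repr.symm.toHomeomorph.measurableEmbedding,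
    ← (PiLp.volume_preserving_toLp (Fin 3)).integral_comp
      (MeasurableEquiv.toLp 2 _).measurableEmbedding]
  have := integral_fintype_prod_volume_eq_prod (ι := Fin 3) (E := fun _ => ℝ) ![f, g, h]
  simpa [Fin.prod_univ_three, ← b.repr_apply_apply] using this

lemma face {C : Set E} (oC : IsOpen C) {α : ℝ} (γ : E →L[ℝ] ℝ)
    (id : ∀ (φ : E → ℝ) (R : ℝ), ContDiff ℝ 2 φ → 0 < R → tsupport φ ⊆ ball 0 R →
      (∀ i, ∀ p ∈ tsupport (dd (b i) φ), p ∉ C → ∀ᶠ t in 𝓝 (0 : ℝ), p + t • b i ∉ C) →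
      ∫ p in C ∩ ball 0 R, γ p * ∑ i, dd (b i) (dd (b i) φ) p =
        α * ∫ p in frontier C ∩ ball 0 R, φ p ∂μHE[2])
    (box : ∀ p, |⟪b 0, p⟫_ℝ - 1| < 1 / 10 → |⟪b 1, p⟫_ℝ| < 1 / 10 → |⟪b 2, p⟫_ℝ| < 1 / 10 →
      (p ∈ C ↔ 0 < ⟪b 2, p⟫_ℝ)) : γ (b 2) = α := by
  let a : ContDiffBump (0 : ℝ) := ⟨1 / 40, 1 / 20, by norm_num, by norm_num⟩
  have as : ∀ t, a t ≠ 0 → |t| ≤ 1 / 20 := fun t ht => by
    have : t ∈ ball (0 : ℝ) (1 / 20) := a.support_eq ▸ ht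
    exact (mem_ball_zero_iff.1 this).le
  have a2 : ContDiff ℝ 2 a := a.contDiff
  have a0 : a 0 = 1 := a.one_of_mem_closedBall (mem_closedBall_self a.rIn_pos.le)
  set φ : E → ℝ := fun p => a (⟪b 0, p⟫_ℝ - 1) * a ⟪b 1, p⟫_ℝ * a ⟪b 2, p⟫_ℝ with hφ
  have li : ∀ i, ContDiff ℝ 2 fun p : E => ⟪b i, p⟫_ℝ := fun i => contDiff_const.inner ℝ contDiff_id
  have φ2 : ContDiff ℝ 2 φ :=
    ((a2.comp ((li 0).sub contDiff_const)).mul (a2.comp (li 1))).mul (a2.comp (li 2))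
  have φ1 : ContDiff ℝ 1 φ := φ2.of_le (by norm_num)
  have d1 : ∀ i, ContDiff ℝ 1 (dd (b i) φ) := fun i => dd_cd (n := 1) φ2 _
  have d2 : ∀ i, Continuous (dd (b i) (dd (b i) φ)) := fun i => (dd_cd (n := 0) (d1 i) _).continuous
  have ts : tsupport φ ⊆ {p | |⟪b 0, p⟫_ℝ - 1| ≤ 1 / 20} ∩ ({p | |⟪b 1, p⟫_ℝ| ≤ 1 / 20} ∩
      {p | |⟪b 2, p⟫_ℝ| ≤ 1 / 20}) :=
    closure_minimal (fun p hp => ⟨as _ fun c => hp (by simp [hφ, c]),
      as _ fun c => hp (by simp [hφ, c]), as _ fun c => hp (by simp [hφ, c])⟩)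
      ((isClosed_le (by fun_prop) continuous_const).inter
        ((isClosed_le (by fun_prop) continuous_const).inter
          (isClosed_le (by fun_prop) continuous_const)))
  set Q : Set E := {p | |⟪b 0, p⟫_ℝ - 1| < 1 / 10} ∩ ({p | |⟪b 1, p⟫_ℝ| < 1 / 10} ∩
      {p | |⟪b 2, p⟫_ℝ| < 1 / 10}) with hQ
  have oQ : IsOpen Q := (isOpen_lt (by fun_prop) continuous_const).inter
    ((isOpen_lt (by fun_prop) continuous_const).inter (isOpen_lt (by fun_prop) continuous_const))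
  have tQ : tsupport φ ⊆ Q := fun p hp => ⟨(ts hp).1.out.trans_lt (by norm_num),
    (ts hp).2.1.out.trans_lt (by norm_num), (ts hp).2.2.out.trans_lt (by norm_num)⟩
  have bx : ∀ p ∈ Q, p ∈ C ↔ 0 < ⟪b 2, p⟫_ℝ := fun p hp => box p hp.1 hp.2.1 hp.2.2
  have tB : tsupport φ ⊆ ball 0 3 := fun p hp => by
    rw [mem_ball_zero_iff, ← abs_norm, ← abs_of_pos (show (0 : ℝ) < 3 by norm_num), ← sq_lt_sq,
      ← b.sum_sq_inner_right, Fin.sum_univ_three]
    have h0 := abs_le.1 (ts hp).1.out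
    have h1 := abs_le.1 (ts hp).2.1.out
    have h2 := abs_le.1 (ts hp).2.2.out
    nlinarith
  have ev : ∀ p ∈ Q, ∀ v : E, ∀ᶠ t in 𝓝 (0 : ℝ), p + t • v ∈ Q := fun p hp v =>
    (show ContinuousAt (fun t : ℝ => p + t • v) 0 by fun_prop).eventually
      (oQ.mem_nhds (by simpa using hp))
  have tg0 : ∀ i, i ≠ 2 → ∀ p ∈ tsupport φ, p ∉ C → ∀ᶠ t in 𝓝 (0 : ℝ), p + t • b i ∉ C :=
    fun i hi p hp c => (ev p (tQ hp) (b i)).mono fun t ht c' => c ((bx p (tQ hp)).2 (by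
      simpa [inner_add_right, inner_smul_right, oi, hi.symm] using (bx _ ht).1 c'))
  have e2 : dd (b 2) φ = fun p => a (⟪b 0, p⟫_ℝ - 1) * a ⟪b 1, p⟫_ℝ * deriv a ⟪b 2, p⟫_ℝ := by
    ext p
    have h1 := ((φ1.differentiable one_ne_zero p).hasFDerivAt.hasLineDerivAt (b 2))
    have h2 : HasDerivAt (fun t : ℝ => a (⟪b 0, p⟫_ℝ - 1) * a ⟪b 1, p⟫_ℝ * a (⟪b 2, p⟫_ℝ + t))
        (a (⟪b 0, p⟫_ℝ - 1) * a ⟪b 1, p⟫_ℝ * deriv a ⟪b 2, p⟫_ℝ) 0 :=
      (HasDerivAt.comp_const_add _ _ (by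
        simpa using (a2.differentiable two_ne_zero _).hasDerivAt)).const_mul _
    refine h1.unique ?_
    simpa [HasLineDerivAt, hφ, inner_add_right, inner_smul_right, oi] using h2
  have tg : ∀ i, ∀ p ∈ tsupport (dd (b i) φ), p ∉ C → ∀ᶠ t in 𝓝 (0 : ℝ), p + t • b i ∉ C := by
    intro i p hp c
    by_cases hi : i = 2
    swap
    · exact tg0 i hi p (dd_supp _ _ hp) c
    subst hi
    have h1 : 1 / 40 ≤ |⟪b 2, p⟫_ℝ| := closure_minimal (s := Function.support (dd (b 2) φ))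
      (t := {p | 1 / 40 ≤ |⟪b 2, p⟫_ℝ|})
      (fun q hq => not_lt.1 fun c => hq (by
        have : deriv a ⟪b 2, q⟫_ℝ = 0 := by
          rw [(a.eventuallyEq_one_of_mem_ball (mem_ball_zero_iff.2 c)).deriv_eq]; simp
        simp [e2, this])) (isClosed_le continuous_const (by fun_prop)) hp
    have pQ := tQ (dd_supp _ _ hp)
    have h2 := not_lt.1 fun c' => c ((bx p pQ).2 c')
    rw [abs_of_nonpos h2] at h1
    filter_upwards [ev p pQ (b 2), gt_mem_nhds (show (0 : ℝ) < 1 / 40 by norm_num)] with t h3 h4 c'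
    have := (bx _ h3).1 c'
    simp only [inner_add_right, inner_smul_right, oi, if_true] at this
    linarith
  have oR := oC.inter (isOpen_ball (x := (0 : E)) (ε := 3))
  have h := id φ 3 φ2 (by norm_num) tB tg
  have ib : ∀ i, ∫ p in C ∩ ball 0 3, γ p * dd (b i) (dd (b i) φ) p =
      -(γ (b i) * ∫ p in C ∩ ball 0 3, dd (b i) φ p) := fun i => by
    have e : dd (b i) γ = fun _ => γ (b i) := funext fun p => by simp [dd]
    rw [ibp oR (b i) (d1 i) (fun p _ => γ.differentiableAt)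
      (by rw [e]; exact intC (continuous_const.mul (d1 i).continuous) _ _)
      (intC (γ.continuous.mul (d2 i)) _ _) (intC (γ.continuous.mul (d1 i).continuous) _ _)
      fun p hp hp' => (tg i p hp fun c => hp' ⟨c, tB (dd_supp _ _ hp)⟩).mono fun t ht c => ht c.1,
      e, integral_const_mul]
  have z : ∀ i, i ≠ 2 → ∫ p in C ∩ ball 0 3, dd (b i) φ p = 0 := fun i hi => by
    have := ibp (U := fun _ => 1) oR (b i) φ1 (fun p _ => differentiableAt_const _)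
      (by simp [dd]) (intC (continuous_const.mul (d1 i).continuous) _ _)
      (intC (continuous_const.mul φ1.continuous) _ _)
      fun p hp hp' => (tg0 i hi p hp fun c => hp' ⟨c, tB hp⟩).mono fun t ht c => ht c.1
    simpa [dd] using this
  have n2 : ∫ p in C ∩ ball 0 3, dd (b 2) φ p = -((∫ t, a t) * ∫ t, a t) := by
    have h1 := vol_int b (fun t => a (t - 1)) a ((Ioi 0).indicator (deriv a))
    rw [integral_sub_right_eq_self, integral_indicator measurableSet_Ioi,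
      a.hasCompactSupport.integral_Ioi_deriv_eq a.contDiff, a0] at h1
    rw [← integral_indicator oR.measurableSet, ← mul_neg_one, ← h1]
    congr 1 with p
    by_cases c : p ∈ tsupport (dd (b 2) φ)
    · have c1 := dd_supp _ _ c
      by_cases c2 : p ∈ C
      · rw [indicator_of_mem (show p ∈ C ∩ ball 0 3 from ⟨c2, tB c1⟩),
          indicator_of_mem (show _ ∈ Ioi (0 : ℝ) from (bx p (tQ c1)).1 c2), e2]
      · rw [indicator_of_notMem fun c' => c2 c'.1,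
          indicator_of_notMem (s := Ioi 0) fun c' => c2 ((bx p (tQ c1)).2 c'), mul_zero]
    · have c1 := image_eq_zero_of_notMem_tsupport c
      rw [indicator_apply_eq_zero.2 fun _ => c1, indicator_apply]
      split_ifs
      · rw [e2] at c1; exact c1.symm
      · simp
  have fr : frontier C ∩ Q = {p | ⟪b 2, p⟫_ℝ = 0} ∩ Q := by
    have e1 : C ∩ Q = innerSL ℝ (b 2) ⁻¹' Ioi 0 ∩ Q := by
      ext p; exact and_congr_left (bx p)
    rw [← frontier_inter_open_inter oQ, e1, frontier_inter_open_inter oQ,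
      ← ((innerSL ℝ (b 2)).isOpenMap fun t => ⟨t • b 2, by
        simp⟩).preimage_frontier_eq_frontier_preimage (by fun_prop),
      frontier_Ioi]
    rfl
  have s2 : ∫ p in frontier C ∩ ball 0 3, φ p ∂μHE[2] = (∫ t, a t) * ∫ t, a t := by
    have h1 := plane_int b (fun t => a (t - 1)) a φ fun q => by
      simp only [hφ, (jj_i b q).1, (jj_i b q).2.1, (jj_i b q).2.2, a0, mul_one]
    rw [integral_sub_right_eq_self] at h1
    rw [← h1, ← integral_indicator (isClosed_frontier.measurableSet.inter measurableSet_ball),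
      ← integral_indicator (isClosed_eq (by fun_prop) continuous_const).measurableSet]
    congr 1 with p
    by_cases c : p ∈ tsupport φ
    · have : p ∈ frontier C ↔ p ∈ {p | ⟪b 2, p⟫_ℝ = 0} :=
        ⟨fun c' => (fr.subset ⟨c', tQ c⟩).1, fun c' => (fr.superset ⟨c', tQ c⟩).1⟩
      by_cases c2 : p ∈ frontier C
      · rw [indicator_of_mem (show p ∈ frontier C ∩ ball 0 3 from ⟨c2, tB c⟩),
          indicator_of_mem (this.1 c2)]
      · rw [indicator_of_notMem fun c' => c2 c'.1, indicator_of_notMem fun c' => c2 (this.2 c')]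
    · have c1 := image_eq_zero_of_notMem_tsupport c
      rw [indicator_apply_eq_zero.2 fun _ => c1, indicator_apply_eq_zero.2 fun _ => c1]
  simp only [Finset.mul_sum] at h
  rw [integral_finsetSum (f := fun i p => γ p * dd (b i) (dd (b i) φ) p) _ fun i _ =>
    intC (γ.continuous.mul (d2 i)) _ _] at h
  simp only [ib, Fin.sum_univ_three, z 0 (by decide), z 1 (by decide), n2, s2] at h
  have ap : 0 < ∫ t, a t := a.integral_pos
  exact mul_right_cancel₀ (mul_pos ap ap).ne' (by linarith)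

def Cn : Set E := {p | 3 * |p 0| < 4 * p 2} ∩ {p | 4 * |p 1| < 3 * p 2}

def Om : Set E := Cn ∩ {p | p 2 < 1}

lemma inn (x y z : ℝ) (p : E) : ⟪(!₂[x, y, z] : E), p⟫_ℝ = x * p 0 + y * p 1 + z * p 2 := by
  simp [PiLp.inner_apply, Fin.sum_univ_three]
  ring

lemma onb (v : Fin 3 → E) (h : ∀ i j, ⟪v i, v j⟫_ℝ = if i = j then 1 else 0) :
    ∃ b : OrthonormalBasis (Fin 3) ℝ E, b 0 = v 0 ∧ b 1 = v 1 ∧ b 2 = v 2 :=
  (Orthonormal.exists_orthonormalBasis_extension_of_card_eq (𝕜 := ℝ) (E := E) (ι := Fin 3)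
    (by simp) (v := v) (s := univ) ((orthonormal_iff_ite.2 h).comp _ Subtype.val_injective)).imp
    fun _ hb => ⟨hb _ trivial, hb _ trivial, hb _ trivial⟩

lemma bX (s : ℝ) (hs : s * s = 1) : ∃ b : OrthonormalBasis (Fin 3) ℝ E,
    b 0 = !₂[s * (4 / 5), 0, 3 / 5] ∧ b 1 = !₂[0, 1, 0] ∧ b 2 = !₂[-s * (3 / 5), 0, 4 / 5] :=
  onb ![!₂[s * (4 / 5), 0, 3 / 5], !₂[0, 1, 0], !₂[-s * (3 / 5), 0, 4 / 5]] fun i j => by
    fin_cases i <;> fin_cases j <;> simp [inn, -inner_self_eq_norm_sq_to_K] <;> nlinarith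

lemma bY (s : ℝ) (hs : s * s = 1) : ∃ b : OrthonormalBasis (Fin 3) ℝ E,
    b 0 = !₂[0, s * (3 / 5), 4 / 5] ∧ b 1 = !₂[1, 0, 0] ∧ b 2 = !₂[0, -s * (4 / 5), 3 / 5] :=
  onb ![!₂[0, s * (3 / 5), 4 / 5], !₂[1, 0, 0], !₂[0, -s * (4 / 5), 3 / 5]] fun i j => by
    fin_cases i <;> fin_cases j <;> simp [inn, -inner_self_eq_norm_sq_to_K] <;> nlinarith

lemma Cn_open : IsOpen Cn :=
  (isOpen_lt (by fun_prop) (by fun_prop)).inter (isOpen_lt (by fun_prop) (by fun_prop))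

lemma Cn_clo {p : E} (hp : p ∈ closure Cn) : 3 * |p 0| ≤ 4 * p 2 ∧ 4 * |p 1| ≤ 3 * p 2 :=
  closure_minimal (t := {p : E | 3 * |p 0| ≤ 4 * p 2} ∩ {p | 4 * |p 1| ≤ 3 * p 2})
    (fun _ h => ⟨h.1.out.le, h.2.out.le⟩)
    ((isClosed_le (by fun_prop) (by fun_prop)).inter (isClosed_le (by fun_prop) (by fun_prop))) hp

lemma Cn_norm {p : E} (hp : p ∈ closure Cn) : ‖p‖ ≤ 2 * p 2 := by
  obtain ⟨h1, h2⟩ := Cn_clo hp
  have h3 := abs_nonneg (p 0)
  have h4 := abs_nonneg (p 1)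
  refine abs_le_of_sq_le_sq' ?_ (by linarith) |>.2
  rw [EuclideanSpace.real_norm_sq_eq, Fin.sum_univ_three, ← sq_abs (p 0), ← sq_abs (p 1)]
  nlinarith

lemma Cn_sm (t : ℝ) (ht : 0 < t) (p : E) (hp : p ∈ Cn) : t • p ∈ Cn := by
  obtain ⟨h1, h2⟩ := hp
  simp only [Cn, mem_inter_iff, mem_ofPred_eq, PiLp.smul_apply, smul_eq_mul, abs_mul,
    abs_of_pos ht] at h1 h2 ⊢
  constructor <;> nlinarith

lemma Cn_add {p q : E} (hp : p ∈ Cn) (hq : q ∈ Cn) : p + q ∈ Cn := by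
  obtain ⟨h1, h2⟩ := hp
  obtain ⟨h3, h4⟩ := hq
  simp only [Cn, mem_inter_iff, mem_ofPred_eq, PiLp.add_apply] at h1 h2 h3 h4 ⊢
  constructor <;> linarith [abs_add_le (p 0) (q 0), abs_add_le (p 1) (q 1)]

lemma Cn_cv : Convex ℝ Cn := convex_iff_forall_pos.2 fun _ hp _ hq _ _ ha hb _ =>
  Cn_add (Cn_sm _ ha _ hp) (Cn_sm _ hb _ hq)

lemma Om_open : IsOpen Om := Cn_open.inter (isOpen_lt (by fun_prop) continuous_const)

lemma Om_cv : Convex ℝ Om := Cn_cv.inter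
  (convex_halfSpace_lt (f := fun p : E => p 2) ⟨fun _ _ => rfl, fun _ _ => rfl⟩ 1)

lemma Om_bd : Bornology.IsBounded Om := (isBounded_ball (x := (0 : E)) (r := 2)).subset
  fun p hp => mem_ball_zero_iff.2 (by linarith [Cn_norm (subset_closure hp.1), hp.2.out])

lemma Om_ne : (!₂[0, 0, 1 / 2] : E) ∈ Om := by simp [Om, Cn]; norm_num

lemma Cn_fin (R : ℝ) : μHE[2] (frontier Cn ∩ ball 0 R) < ⊤ := by
  obtain ⟨b1, -, -, h1⟩ := bX 1 (by norm_num)
  obtain ⟨b2, -, -, h2⟩ := bX (-1) (by norm_num)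
  obtain ⟨b3, -, -, h3⟩ := bY 1 (by norm_num)
  obtain ⟨b4, -, -, h4⟩ := bY (-1) (by norm_num)
  refine (measure_mono fun p hp => ?_).trans_lt (measure_union_lt_top (measure_union_lt_top
    (plane_fin b1 R) (plane_fin b2 R)) (measure_union_lt_top (plane_fin b3 R) (plane_fin b4 R)))
  obtain ⟨h5, h6⟩ := Cn_clo hp.1.1
  have h7 := (Cn_open.frontier_eq ▸ hp.1).2
  simp only [mem_union, mem_inter_iff, hp.2, and_true, mem_ofPred_eq, h1, h2, h3, h4, inn]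
  by_contra! c
  refine h7 ⟨h5.lt_of_ne fun e => ?_, h6.lt_of_ne fun e => ?_⟩
  · rcases abs_cases (p 0) with h | h
    exacts [c.1.1 (by linarith [h.1]), c.1.2 (by linarith [h.1])]
  · rcases abs_cases (p 1) with h | h
    exacts [c.2.1 (by linarith [h.1]), c.2.2 (by linarith [h.1])]

theorem final {α lam : ℝ} {u : E → ℝ} (α0 : 0 < α) (cls : Cls Om u) (pos : ∀ p ∈ Om, 0 < u p)
    (weak : ∀ ψ, Cls Om ψ → (∫ x in Om, ⟪gradient u x, gradient ψ x⟫_ℝ) +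
      α * ∫ x in frontier Om, u x * ψ x ∂μHE[2] = lam * ∫ x in Om, u x * ψ x) :
    ¬ ConcaveOn ℝ Om fun x => log (u x) := fun conc => by
  have H : Hyp Cn Om α lam u := ⟨Cn_open, Cn_cv, Cn_sm, ⟨_, Om_ne.1⟩, Cn_fin, Om_open,
    inter_subset_left, fun p hp h => ⟨hp, (le_abs_self _).trans_lt
      ((PiLp.norm_apply_le p 2).trans_lt h)⟩, Om_bd, α0, cls, pos, weak, conc⟩
  have m1 : (!₂[0, 0, 1] : E) ∈ Cn := by simp [Cn]
  have m2 : (!₂[1, 0, 2] : E) ∈ Cn := by simp [Cn]; norm_num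
  have m3 : (!₂[0, 1, 2] : E) ∈ Cn := by simp [Cn]; norm_num
  obtain ⟨w, add, hom, idn⟩ := H.blow (H.pos0 (by
    simp [EuclideanSpace.norm_eq, Fin.sum_univ_three]) m1 fun p hp => by
      simpa [inn] using Cn_norm hp)
  set γ : E →L[ℝ] ℝ := innerSL ℝ (!₂[w !₂[1, 0, 2] - 2 * w !₂[0, 0, 1],
    w !₂[0, 1, 2] - 2 * w !₂[0, 0, 1], w !₂[0, 0, 1]] : E) with hγ
  have lin : ∀ p ∈ Cn, w p = γ p := fun p hp => by
    obtain ⟨T, T0, T1, T2⟩ : ∃ T, 0 < T ∧ 0 < p 0 + T ∧ 0 < p 1 + T :=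
      ⟨|p 0| + |p 1| + 1, by positivity, by linarith [neg_abs_le (p 0), abs_nonneg (p 1)],
        by linarith [neg_abs_le (p 1), abs_nonneg (p 0)]⟩
    have z0 : 0 < p 2 := by linarith [hp.1.out, abs_nonneg (p 0)]
    have e : p + T • (!₂[1, 0, 2] : E) + T • (!₂[0, 1, 2] : E) +
        (2 * (p 0 + T) + 2 * (p 1 + T)) • (!₂[0, 0, 1] : E) = (p 0 + T) • (!₂[1, 0, 2] : E) +
        (p 1 + T) • (!₂[0, 1, 2] : E) + (p 2 + 4 * T) • (!₂[0, 0, 1] : E) := by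
      ext i
      fin_cases i <;> simp
      ring
    have a1 := Cn_sm T T0 _ m2
    have a2 := Cn_sm T T0 _ m3
    have a3 := Cn_sm _ T1 _ m2
    have a4 := Cn_sm _ T2 _ m3
    have t3 : 0 < 2 * (p 0 + T) + 2 * (p 1 + T) := by linarith
    have t4 : 0 < p 2 + 4 * T := by linarith
    have := congrArg w e
    rw [add _ (Cn_add (Cn_add hp a1) a2) _ (Cn_sm _ t3 _ m1), add _ (Cn_add hp a1) _ a2,
      add _ hp _ a1, add _ (Cn_add a3 a4) _ (Cn_sm _ t4 _ m1), add _ a3 _ a4, hom _ T0 _ m2,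
      hom _ T0 _ m3, hom _ T1 _ m2, hom _ T2 _ m3, hom _ t3 _ m1, hom _ t4 _ m1] at this
    rw [hγ, innerSL_apply_apply, inn]
    linarith
  have fc := fun (b : OrthonormalBasis (Fin 3) ℝ E) => face b Cn_open (α := α) γ
    fun φ R h1 h2 h3 h4 => (setIntegral_congr_fun (H.mR R) fun p hp => by
      simp only [lin p hp.1]).trans (idn b φ R h1 h2 h3 h4)
  have fx : ∀ s : ℝ, s = 1 ∨ s = -1 → γ !₂[-s * (3 / 5), 0, 4 / 5] = α := fun s hs => by
    obtain ⟨b, h0, h1, h2⟩ := bX s (by rcases hs with rfl | rfl <;> norm_num)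
    rw [← h2]
    refine fc b fun p k0 k1 k2 => ?_
    simp only [h0, h1, h2, inn, abs_lt, Cn, mem_inter_iff, mem_ofPred_eq] at k0 k1 k2 ⊢
    rcases abs_cases (p 0) with c | c <;> rcases abs_cases (p 1) with d | d <;>
      rcases hs with rfl | rfl <;>
      exact ⟨fun h => by linarith, fun h => ⟨by linarith, by linarith⟩⟩
  have fy : ∀ s : ℝ, s = 1 ∨ s = -1 → γ !₂[0, -s * (4 / 5), 3 / 5] = α := fun s hs => by
    obtain ⟨b, h0, h1, h2⟩ := bY s (by rcases hs with rfl | rfl <;> norm_num)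
    rw [← h2]
    refine fc b fun p k0 k1 k2 => ?_
    simp only [h0, h1, h2, inn, abs_lt, Cn, mem_inter_iff, mem_ofPred_eq] at k0 k1 k2 ⊢
    rcases abs_cases (p 0) with c | c <;> rcases abs_cases (p 1) with d | d <;>
      rcases hs with rfl | rfl <;>
      exact ⟨fun h => by linarith, fun h => ⟨by linarith, by linarith⟩⟩
  have f1 := fx 1 (.inl rfl)
  have f2 := fx (-1) (.inr rfl)
  have f3 := fy 1 (.inl rfl)
  have f4 := fy (-1) (.inr rfl)
  simp only [hγ, innerSL_apply_apply, inn] at f1 f2 f3 f4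
  simp at f1 f2 f3 f4
  linarith

end Pool.Agent.H.MP_c1ff29_an
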